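import Pool.Agent.H78.GLM.Grad

/-!
# Steep polynomial labels give labels
-/

set_option autoImplicit false

namespace Pool.GLM

open Finset Real MvPolynomial
open Pool.Agent.H49.Ent Pool.Agent.H32.Dense Pool.STK Pool.KA Pool.KSAT Pool.K2S Pool.PB

variable {m J : ℕ}

/-- The rounded base point: a function of the exact point. -/
noncomputable def rbp {ζ : Type} (J : ℕ) (i₁ : Fin m) (y : (Fin m → ℤ) × (ℕ × ζ)) : Fin m → ℝ :=
  Function.update (fun j => (y.1 j : ℝ) / 2 ^ J) i₁ ((y.2.1 : ℝ) / 2 ^ J)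

lemma rbp_near (F : Fam m J) (i₁ : Fin m) (ω : F.Ω) (j : Fin m) :
    |rbp J i₁ (Fam.pt F ω) j - bp F i₁ ω j| ≤ 1 / 2 ^ J := by
  have hJ0 : (0 : ℝ) < 2 ^ J := by positivity
  by_cases h : j = i₁
  · rw [h, bp_self]
    unfold rbp
    rw [Function.update_self]
    have : (((Fam.pt F ω).2.1 : ℕ) : ℝ) / 2 ^ J - F.t ω = 0 := by
      change (F.T ω : ℝ) / 2 ^ J - (F.T ω : ℝ) / 2 ^ J = 0
      exact sub_self _
    rw [this, abs_zero]
    positivity
  · rw [bp_ne F h]
    unfold rbp
    rw [Function.update_of_ne h]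
    have f1 : (F.X J ω j : ℝ) ≤ 2 ^ J * F.x ω j ∧ 2 ^ J * F.x ω j < F.X J ω j + 1 := by
      unfold Fam.X fl rd
      exact ⟨Int.floor_le _, Int.lt_floor_add_one _⟩
    have e : (((Fam.pt F ω).1 j : ℤ) : ℝ) / 2 ^ J - F.x ω j =
        ((F.X J ω j : ℝ) - 2 ^ J * F.x ω j) / 2 ^ J := by
      change ((F.X J ω j : ℤ) : ℝ) / 2 ^ J - F.x ω j = _
      field_simp
    rw [e, abs_div, abs_of_pos hJ0]
    refine div_le_div_of_nonneg_right ?_ hJ0.le
    rw [abs_le]
    constructor <;> linarith only [f1, f1.1, f1.2]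

/-- The times of a fibre are in one window. -/
lemma tms_le (F : Fam m J) {q : F.Ω → ℝ} {w : ℕ} (ω : F.Ω) (hω : 0 < q ω) :
    Real.log (tms q F.T (slam F w) (slam F w ω)).card ≤ ((J - w : ℕ) : ℝ) * Real.log 2 := by
  classical
  have hsub : tms q F.T (slam F w) (slam F w ω) ⊆
      Finset.Ico (F.T1 w ω * 2 ^ (J - w)) ((F.T1 w ω + 1) * 2 ^ (J - w)) := by
    intro e he
    obtain ⟨ω', hω', rfl⟩ := mem_tms.1 he
    have h1 : F.T1 w ω' = F.T1 w ω := congrArg (fun s => s.2.2) hω'.2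
    rw [Finset.mem_Ico, ← h1]
    unfold Fam.T1
    constructor
    · exact Nat.div_mul_le_self _ _
    · rw [← Nat.div_lt_iff_lt_mul (by positivity)]
      exact Nat.lt_succ_self _
  have hc := Finset.card_le_card hsub
  rw [Nat.card_Ico, add_mul, one_mul, Nat.add_sub_cancel_left] at hc
  have hne : (tms q F.T (slam F w) (slam F w ω)).Nonempty :=
    ⟨F.T ω, mem_tms.2 ⟨ω, ⟨hω, rfl⟩, rfl⟩⟩
  have hpos : (0 : ℝ) < (tms q F.T (slam F w) (slam F w ω)).card := by
    exact_mod_cast Finset.card_pos.2 hne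
  rw [← Real.log_pow]
  refine Real.log_le_log hpos ?_
  exact_mod_cast hc

lemma Pe_le3 {Ω : Type} [Fintype Ω] {p : Ω → ℝ} (hp : IsLaw p) {A B₁ B₂ B₃ : Ω → Prop}
    (h : ∀ ω, A ω → B₁ ω ∨ B₂ ω ∨ B₃ ω) : Pe p A ≤ Pe p B₁ + (Pe p B₂ + Pe p B₃) := by
  classical
  rw [Pe_eq, Pe_eq, Pe_eq, Pe_eq, ← Finset.sum_add_distrib, ← Finset.sum_add_distrib]
  refine Finset.sum_le_sum fun ω _ => ?_
  have h0 := hp.nonneg ω
  have h1 := h ω
  by_cases a : A ω <;> by_cases b₁ : B₁ ω <;> by_cases b₂ : B₂ ω <;> by_cases b₃ : B₃ ω <;>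
    simp only [a, b₁, b₂, b₃, if_true, if_false] at h1 ⊢ <;> first | linarith | simp at h1

/-- **From steep polynomial labels to labels.** The losses: half of the event, and the radius of
the ball becomes `2 ^ (-(w + S + c₀))`. -/
theorem lab_grad (m K : ℕ) (hm : 2 ≤ m) (hK : 1 ≤ K) : ∃ c₀ : ℕ, ∀ (J : ℕ) (F : Fam m J)
    (i₁ : Fin m) (r w P S h : ℕ) (ψ g θ : ℝ) (A : F.Ω → Prop), 0 < Pe F.p A →
    LabS F i₁ r K w P S A → Ch F i₁ h A → Sp F (m - 2) ψ g A → Real.log 4 ≤ ψ * J → 0 < θ →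
    ((J : ℝ) - w) * Real.log 2 -
      CH (Pool.Agent.H49.Ent.cond F.p A True) F.T (slam F w) ≤ θ → r ≤ J → P ≤ J →
    (w : ℝ) + ⌊g * J⌋₊ + 6 * K * θ + c₀ ≤ P → ⌊g * J⌋₊ + c₀ ≤ h → ⌊g * J⌋₊ + w + S + c₀ ≤ J →
    ∃ A' : F.Ω → Prop, Sub A' A ∧ Pe F.p A ≤ 2 * Pe F.p A' ∧
      Lab F i₁ r K (w + S + c₀) w P A' := by
  obtain ⟨C, hC1, hC⟩ := line_rel K hK
  obtain ⟨C₂, hC₂1, hC₂⟩ := grad_move m K
  obtain ⟨C₃, hC₃1, hC₃⟩ := grad_small m K
  obtain ⟨c₀, hc₀⟩ : ∃ c₀ : ℕ, 5 + 4 * (2 * C + m * C₃) + 4 * m * C₂ + K + 1 ≤ (2 : ℝ) ^ c₀ := by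
    obtain ⟨c₀, hc₀⟩ := pow_unbounded_of_one_lt (5 + 4 * (2 * C + m * C₃) + 4 * m * C₂ + K + 1)
      (one_lt_two : (1 : ℝ) < 2)
    exact ⟨c₀, hc₀.le⟩
  refine ⟨c₀, ?_⟩
  intro J F i₁ r w P S h ψ g θ A hA hLab hCh hSp hψ hθ0 hθ hr hPJ n1 n2 n3
  obtain ⟨G, H, hGd, hHd, hGH⟩ := hLab
  obtain ⟨n, s, hns⟩ := hCh
  obtain ⟨φ, hφ⟩ := ptr_coarse F hr
  have hφ' : ∀ ω, ptr F r ω = φ (Fam.pt F ω) := fun ω => by rw [← ptr_J]; exact hφ ω
  set gJ : ℕ := ⌊g * J⌋₊ with hgJ
  set q := Pool.Agent.H49.Ent.cond F.p A True with hq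
  have hqlaw : IsLaw q := isLaw_cond F.isLaw hA
  have hmr : (2 : ℝ) ≤ m := by exact_mod_cast hm
  have hKr : (1 : ℝ) ≤ K := by exact_mod_cast hK
  have hm0 : (0 : ℝ) < m := by linarith only [hmr]
  have hc0 : (0 : ℝ) < 2 ^ c₀ := by positivity
  have hg0 : (0 : ℝ) < 2 ^ gJ := by positivity
  have hC0 : 0 < C := by linarith only [hC1]
  have hC₂0 : 0 < C₂ := by linarith only [hC₂1]
  have hmC : 0 ≤ (m : ℝ) * C₂ := by positivity
  have hwJ : w ≤ J := by omega
  have hlog2 : 0 < Real.log 2 := Real.log_pos one_lt_two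
  have hlog2' : Real.log 2 ≤ 0.6931471808 := Real.log_two_lt_d9.le
  have hlog2'' : 0.6931471803 ≤ Real.log 2 := Real.log_two_gt_d9.le
  -- constants
  set ρ : ℝ := Real.exp (-(4 * θ)) with hρ
  exact by
   have hρ0 : 0 < ρ := Real.exp_pos _
   have hρK : (1 / ρ) ^ K ≤ (2 : ℝ) ^ (6 * K * θ) := by
     rw [hρ, one_div, ← Real.exp_neg, neg_neg, ← Real.exp_nat_mul,
       Real.rpow_def_of_pos (by norm_num : (0 : ℝ) < 2)]
     refine Real.exp_le_exp.2 ?_
     have e9 : 4 * ((K : ℝ) * θ) ≤ 6 * Real.log 2 * (K * θ) :=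
       mul_le_mul_of_nonneg_right (by linarith only [hlog2, hlog2'']) (by positivity)
     calc (K : ℝ) * (4 * θ) = 4 * (K * θ) := by ring
       _ ≤ 6 * Real.log 2 * (K * θ) := e9
       _ = _ := by ring
   have hK1 : (1 / ρ) ^ K * (2 ^ w / 2 ^ P) ≤ 1 / (2 ^ c₀ * 2 ^ gJ) := by
     have e1 : (2 : ℝ) ^ (6 * K * θ) * (2 ^ w * (2 ^ c₀ * 2 ^ gJ)) ≤ 2 ^ P := by
       have e2 : (2 : ℝ) ^ (6 * K * θ) * (2 ^ w * (2 ^ c₀ * 2 ^ gJ)) =
           (2 : ℝ) ^ (6 * K * θ + (w + (c₀ + gJ))) := by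
         rw [Real.rpow_add (by norm_num), Real.rpow_add (by norm_num),
           Real.rpow_add (by norm_num), Real.rpow_natCast, Real.rpow_natCast, Real.rpow_natCast]
       rw [e2, ← Real.rpow_natCast 2 P]
       refine Real.rpow_le_rpow_of_exponent_le (by norm_num) ?_
       linarith only [n1]
     rw [le_div_iff₀ (by positivity)]
     calc (1 / ρ) ^ K * (2 ^ w / 2 ^ P) * (2 ^ c₀ * 2 ^ gJ)
         = (1 / ρ) ^ K * (2 ^ w * (2 ^ c₀ * 2 ^ gJ)) / 2 ^ P := by ring
       _ ≤ (2 : ℝ) ^ (6 * K * θ) * (2 ^ w * (2 ^ c₀ * 2 ^ gJ)) / 2 ^ P := by gcongr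
       _ ≤ 2 ^ P / 2 ^ P := by gcongr
       _ = 1 := div_self (by positivity)
   have hC₃0 : 0 < C₃ := by linarith only [hC₃1, hlog2, hlog2']
   have hρ1 : 1 ≤ (1 / ρ) ^ K := by
     refine one_le_pow₀ ?_
     rw [le_div_iff₀ hρ0, one_mul, hρ]
     exact Real.exp_le_one_iff.2 (by linarith only [hθ0])
   exact by
    set ε₁ : ℝ := C * (1 / ρ) ^ K * (2 ^ w * (2 / 2 ^ P)) + m * (C₃ * (1 / 2 ^ P / (1 / 2 ^ w)))
      with hε₁
    have hCC : 0 < 2 * C + m * C₃ := by positivity
    have hε₁a : ε₁ ≤ (2 * C + m * C₃) / (2 ^ c₀ * 2 ^ gJ) := by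
      have e1 : (1 : ℝ) / 2 ^ P / (1 / 2 ^ w) ≤ (1 / ρ) ^ K * (2 ^ w / 2 ^ P) := by
        have e2 : (1 : ℝ) / 2 ^ P / (1 / 2 ^ w) = 2 ^ w / 2 ^ P := by field_simp
        rw [e2]
        exact le_mul_of_one_le_left (by positivity) hρ1
      have e3 : ε₁ ≤ (2 * C + m * C₃) * ((1 / ρ) ^ K * (2 ^ w / 2 ^ P)) := by
        have e4 : (m : ℝ) * (C₃ * (1 / 2 ^ P / (1 / 2 ^ w))) ≤
            m * (C₃ * ((1 / ρ) ^ K * (2 ^ w / 2 ^ P))) := by gcongr
        have e5 : (2 * C + m * C₃) * ((1 / ρ) ^ K * (2 ^ w / 2 ^ P)) =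
            C * (1 / ρ) ^ K * (2 ^ w * (2 / 2 ^ P)) +
              m * (C₃ * ((1 / ρ) ^ K * (2 ^ w / 2 ^ P))) := by ring
        rw [e5]
        linarith only [hε₁, e4]
      refine e3.trans ?_
      rw [div_eq_mul_one_div (2 * C + m * C₃)]
      exact mul_le_mul_of_nonneg_left hK1 hCC.le
    have hε₁0 : 0 ≤ ε₁ := by positivity
    set ε₃ : ℝ := C₂ * (2 ^ S / (1 / 2 ^ w)) * (1 / 2 ^ J) with hε₃
    have hε₃0 : 0 ≤ ε₃ := by positivity
    have hε₃a : ε₃ ≤ C₂ / (2 ^ c₀ * 2 ^ gJ) := by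
      have e1 : (2 : ℝ) ^ S * 2 ^ w * (2 ^ c₀ * 2 ^ gJ) ≤ 2 ^ J := by
        rw [← pow_add, ← pow_add, ← pow_add]
        exact pow_le_pow_right₀ (by norm_num) (by omega)
      rw [hε₃, le_div_iff₀ (by positivity)]
      calc C₂ * (2 ^ S / (1 / 2 ^ w)) * (1 / 2 ^ J) * (2 ^ c₀ * 2 ^ gJ)
          = C₂ * ((2 : ℝ) ^ S * 2 ^ w * (2 ^ c₀ * 2 ^ gJ) / 2 ^ J) := by
            field_simp
        _ ≤ C₂ * (2 ^ J / 2 ^ J) := by gcongr
        _ = C₂ := by rw [div_self (by positivity), mul_one]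
    exact by
     have hη : (1 : ℝ) / 2 ^ h ≤ 1 / (2 ^ c₀ * 2 ^ gJ) := by
       rw [← pow_add]
       exact one_div_le_one_div_of_le (by positivity)
         (pow_le_pow_right₀ (by norm_num) (by omega))
     have hgJ1 : (1 : ℝ) ≤ 2 ^ gJ := one_le_pow₀ (by norm_num)
     have hsmall : ∀ x : ℝ, 0 ≤ x → 4 * x ≤ 2 ^ c₀ → x / (2 ^ c₀ * 2 ^ gJ) ≤ 1 / 4 := by
       intro x hx0 hx
       rw [div_le_div_iff₀ (by positivity) (by norm_num)]
       have : (2 : ℝ) ^ c₀ ≤ 2 ^ c₀ * 2 ^ gJ := le_mul_of_one_le_right hc0.le hgJ1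
       linarith only [hx, this]
     have hC₂m : C₂ ≤ m * C₂ := by nlinarith only [hmr, hlog2, hlog2', hC₂1]
     have hε₁b : ε₁ ≤ 1 / 4 := hε₁a.trans (hsmall _ hCC.le (by linarith only [hC₂1, hc₀, hKr, hlog2, hlog2', hC₂m]))
     have hε₃b : ε₃ ≤ 1 / 4 := hε₃a.trans (hsmall C₂ hC₂0.le (by linarith only [hc₀, hKr, hlog2, hlog2', hCC, hC₂m]))
     -- (1) fibres with many times
     have hLM : ((J - w : ℕ) : ℝ) * Real.log 2 = ((J : ℝ) - w) * Real.log 2 := by
       rw [Nat.cast_sub hwJ]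
     have h1 := tms_card hqlaw F.T (slam F w) θ (((J - w : ℕ) : ℝ) * Real.log 2)
       (fun ω hω => tms_le F ω hω) (by rw [hLM]; exact hθ) hθ0
     obtain ⟨A₁, hA₁⟩ : ∃ A₁ : F.Ω → Prop, A₁ = fun ω => A ω ∧
         ¬ Real.log (tms q F.T (slam F w) (slam F w ω)).card <
           ((J - w : ℕ) : ℝ) * Real.log 2 - 4 * θ := ⟨_, rfl⟩
     have hsub1 : Sub A₁ A := by rw [hA₁]; exact fun ω hω => hω.1
     have hbad1 : Pe F.p (fun ω => A ω ∧ Real.log (tms q F.T (slam F w) (slam F w ω)).card <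
         ((J - w : ℕ) : ℝ) * Real.log 2 - 4 * θ) ≤ 1 / 4 * Pe F.p A := by
       rw [hq, Pe_cond, div_le_iff₀ hA] at h1
       exact h1
     -- (2) the relation on `A₁`
     have hexp : Real.exp (((J - w : ℕ) : ℝ) * Real.log 2 - 4 * θ) = ρ * 2 ^ (J - w) := by
       rw [sub_eq_add_neg, Real.exp_add, hρ, mul_comm, ← Real.log_pow, Real.exp_log (by positivity)]
     have hKρ : (K : ℝ) + 1 ≤ ρ * 2 ^ (J - w) := by
       have e1 : (2 : ℝ) ^ c₀ ≤ ρ * 2 ^ (J - w) := by
         rw [← hexp]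
         have e2 : (2 : ℝ) ^ c₀ = Real.exp (c₀ * Real.log 2) := by
           rw [← Real.log_pow, Real.exp_log (by positivity)]
         rw [e2]
         refine Real.exp_le_exp.2 ?_
         have e3 : (P : ℝ) ≤ J := by exact_mod_cast hPJ
         have e4 : (w : ℝ) + 6 * K * θ + c₀ ≤ J := by
           have : (0 : ℝ) ≤ gJ := Nat.cast_nonneg _
           linarith only [n1, e3]
         have e5 : (c₀ : ℝ) * Real.log 2 + 6 * K * θ * Real.log 2 ≤
             ((J : ℝ) - w) * Real.log 2 := by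
           rw [← add_mul]
           exact mul_le_mul_of_nonneg_right (by linarith only [n1, e3]) hlog2.le
         have e6 : 4 * θ ≤ 6 * K * θ * Real.log 2 := by
           have e7 : 1 * θ ≤ K * θ := mul_le_mul_of_nonneg_right hKr hθ0.le
           have e9 : 4 * (K * θ) ≤ 6 * Real.log 2 * (K * θ) :=
             mul_le_mul_of_nonneg_right (by linarith only [hlog2, hlog2'']) (by positivity)
           calc 4 * θ ≤ 4 * (K * θ) := by linarith only [e7]
             _ ≤ 6 * Real.log 2 * (K * θ) := e9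
             _ = _ := by ring
         rw [hLM]
         linarith only [e5, e6]
       linarith only [hC₂1, hc₀, hlog2, hlog2', hCC, hC₂m, e1]
     exact by
      have hrel : ∀ ω, A₁ ω → |F.d ω i₁ - ∑ j, bv F i₁ ω j *
          eval (bp F i₁ ω) (pderiv j (G (ptr F r ω)))| ≤ ε₁ := by
        intro ω hω
        have hAω := hsub1 ω hω
        rw [hA₁] at hω
        have h2 := not_lt.1 hω.2
        have hcard : ρ * 2 ^ (J - w) ≤ (tms q F.T (slam F w) (slam F w ω)).card := by
          rw [← hexp]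
          have hlogpos : 0 < Real.log (tms q F.T (slam F w) (slam F w ω)).card := by
            refine lt_of_lt_of_le ?_ h2
            have e1 : 1 < Real.exp (((J - w : ℕ) : ℝ) * Real.log 2 - 4 * θ) := by
              rw [hexp]
              linarith only [hKr, hlog2, hlog2', hKρ]
            exact Real.one_lt_exp_iff.1 e1
          have hpos : (0 : ℝ) < (tms q F.T (slam F w) (slam F w ω)).card := by
            rcases (Nat.cast_nonneg (α := ℝ) (tms q F.T (slam F w) (slam F w ω)).card).lt_or_eq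
              with h3 | h3
            · exact h3
            · rw [← h3, Real.log_zero] at hlogpos
              exact absurd hlogpos (lt_irrefl _)
          rw [← Real.le_log_iff_exp_le hpos]
          exact h2
        have h3 := hGH ω hAω
        have hrelH := hC m J F i₁ w ω (H (slam F w ω)) (tms q F.T (slam F w) (slam F w ω)) ρ
          (2 / 2 ^ P) (hHd _) hwJ hρ0 (fun e he => by
            obtain ⟨ω', hω', rfl⟩ := mem_tms.1 he
            exact congrArg (fun s => s.2.2) hω'.2) hcard hKρ (fun e he => by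
            obtain ⟨ω', hω', rfl⟩ := mem_tms.1 he
            have hq' : 0 < q ω' := hω'.1
            have hAω' : A ω' := by
              have := (cond_pos_iff F.isLaw.nonneg A True ω').1 hq'
              simpa using this.2
            have h4 := hGH ω' hAω'
            have hl : F.l ω' = F.l ω := congrArg (fun s => s.1) hω'.2
            rw [← bpt_same F i₁ hl, bpt_T, ← hω'.2]
            have e1 : F.u ω i₁ + ((F.T ω' : ℕ) : ℝ) / 2 ^ J * F.d ω i₁ = F.x ω' i₁ := by
              have e2 : F.u ω' = F.u ω := (Prod.ext_iff.mp hl).1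
              have e3 : F.d ω' = F.d ω := (Prod.ext_iff.mp hl).2
              rw [← e2, ← e3]
              rfl
            rw [e1]
            have h5 := (h4.2 (bp F i₁ ω') (fun j => by
              rw [sub_self, abs_zero]; positivity)).2
            have h6 := h4.1
            have e4 : (2 : ℝ) / 2 ^ P = 1 / 2 ^ P + 1 / 2 ^ P := by ring
            rw [e4]
            calc |F.x ω' i₁ - eval (bp F i₁ ω') (H (slam F w ω'))|
                = |(F.x ω' i₁ - eval (bp F i₁ ω') (G (ptr F r ω'))) +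
                  (eval (bp F i₁ ω') (G (ptr F r ω')) - eval (bp F i₁ ω') (H (slam F w ω')))| := by
                  congr 1
                  ring
              _ ≤ _ := (abs_add_le _ _).trans (add_le_add h6 h5))
        have hdiff : ∀ j, |eval (bp F i₁ ω) (pderiv j (G (ptr F r ω))) -
            eval (bp F i₁ ω) (pderiv j (H (slam F w ω)))| ≤ C₃ * (1 / 2 ^ P / (1 / 2 ^ w)) := by
          intro j
          have h5 := hC₃ (G (ptr F r ω) - H (slam F w ω)) (bp F i₁ ω) (1 / 2 ^ w) (1 / 2 ^ P)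
            ((totalDegree_sub _ _).trans (max_le (hGd _) (hHd _))) (by positivity)
            (fun b hb => by
              rw [map_sub]
              exact (h3.2 b hb).2) j
          rwa [map_sub, map_sub] at h5
        have e1 : F.d ω i₁ - ∑ j, bv F i₁ ω j * eval (bp F i₁ ω) (pderiv j (G (ptr F r ω))) =
            (F.d ω i₁ - ∑ j, bv F i₁ ω j * eval (bp F i₁ ω) (pderiv j (H (slam F w ω)))) -
            ∑ j, bv F i₁ ω j * (eval (bp F i₁ ω) (pderiv j (G (ptr F r ω))) -
              eval (bp F i₁ ω) (pderiv j (H (slam F w ω)))) := by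
          simp only [mul_sub, Finset.sum_sub_distrib]
          ring
        rw [e1]
        refine (abs_sub _ _).trans (add_le_add hrelH ?_)
        refine (Finset.abs_sum_le_sum_abs _ _).trans ?_
        have : ∀ j ∈ (univ : Finset (Fin m)), |bv F i₁ ω j *
            (eval (bp F i₁ ω) (pderiv j (G (ptr F r ω))) -
              eval (bp F i₁ ω) (pderiv j (H (slam F w ω))))| ≤ C₃ * (1 / 2 ^ P / (1 / 2 ^ w)) := by
          intro j _
          rw [abs_mul]
          calc _ ≤ 1 * (C₃ * (1 / 2 ^ P / (1 / 2 ^ w))) :=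
                mul_le_mul (bv_le F i₁ ω j) (hdiff j) (abs_nonneg _) zero_le_one
            _ = _ := one_mul _
        refine (Finset.sum_le_sum this).trans ?_
        rw [Finset.sum_const, Finset.card_univ, Fintype.card_fin, nsmul_eq_mul]
      -- (3) the gradient near the base point
      exact by
       have hmove : ∀ ω, A ω → ∀ (b : Fin m → ℝ) (δ : ℝ), (∀ j, |b j - bp F i₁ ω j| ≤ δ) →
           δ ≤ 2 * (1 / 2 ^ w) → ∀ j, |eval b (pderiv j (G (ptr F r ω))) -
             eval (bp F i₁ ω) (pderiv j (G (ptr F r ω)))| ≤ C₂ * (2 ^ S / (1 / 2 ^ w)) * δ := by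
         intro ω hω
         exact hC₂ (G (ptr F r ω)) (bp F i₁ ω) (1 / 2 ^ w) (2 ^ S) (hGd _) (by positivity)
           (by positivity) (fun b hb => ((hGH ω hω).2 b hb).1)
       have hJw : (1 : ℝ) / 2 ^ J ≤ 2 * (1 / 2 ^ w) := by
         have e1 : (1 : ℝ) / 2 ^ J ≤ 1 / 2 ^ w := inv_mono hwJ
         have e2 : (0 : ℝ) < 1 / 2 ^ w := by positivity
         linarith only [e1, e2]
       have hround : ∀ ω, A ω → ∀ j, |eval (rbp J i₁ (Fam.pt F ω)) (pderiv j (G (ptr F r ω))) -
           eval (bp F i₁ ω) (pderiv j (G (ptr F r ω)))| ≤ ε₃ := by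
         intro ω hω j
         exact hmove ω hω _ _ (rbp_near F i₁ ω) hJw j
       -- (4) the spread
       obtain ⟨β, hβ⟩ : ∃ β : (Fin m → ℤ) × (ℕ × F.ζ) → Fin m → ℝ, β = fun y j =>
         if j = i₁ then 0 else s y j - eval (rbp J i₁ y) (pderiv j (G (φ y))) := ⟨_, rfl⟩
       obtain ⟨β₀, hβ₀⟩ : ∃ β₀ : (Fin m → ℤ) × (ℕ × F.ζ) → ℝ, β₀ = fun y =>
         n y - eval (rbp J i₁ y) (pderiv i₁ (G (φ y))) := ⟨_, rfl⟩
       obtain ⟨B, hB⟩ : ∃ B : F.Ω → Prop, B = fun ω => A₁ ω ∧ ∃ j, 1 / 4 ≤ |β (Fam.pt F ω) j| :=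
         ⟨_, rfl⟩
       have hBsub : Sub B A := by rw [hB]; exact fun ω hω => hsub1 ω hω.1
       have hPl : PlU (m - 2) (1 / 2 ^ h + (1 / 2 ^ h + (ε₁ + m * ε₃)) / (1 / 4)) (Fam.pt F) F.d B := by
         refine plU_of_rel F hm n β₀ s β (by norm_num) (fun ω hω => hns ω (hBsub ω hω)) ?_ ?_
         · intro ω hω
           have hA1ω : A₁ ω := by rw [hB] at hω; exact hω.1
           have hAω := hsub1 ω hA1ω
           constructor
           · rw [hβ]; simp
           have e1 : β₀ (Fam.pt F ω) + ∑ j, β (Fam.pt F ω) j * F.d ω j =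
               -(F.d ω i₁ - n (Fam.pt F ω) - ∑ j, s (Fam.pt F ω) j * F.d ω j) +
               ((F.d ω i₁ - ∑ j, bv F i₁ ω j * eval (bp F i₁ ω) (pderiv j (G (ptr F r ω)))) -
               ∑ j, bv F i₁ ω j * (eval (rbp J i₁ (Fam.pt F ω)) (pderiv j (G (ptr F r ω))) -
                 eval (bp F i₁ ω) (pderiv j (G (ptr F r ω))))) := by
             have hs0 := (hns ω hAω).1
             rw [hβ, hβ₀]
             simp only
             rw [← hφ' ω]
             have e2 : ∑ j, (if j = i₁ then (0 : ℝ) else s (Fam.pt F ω) j -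
                 eval (rbp J i₁ (Fam.pt F ω)) (pderiv j (G (ptr F r ω)))) * F.d ω j =
                 ∑ j, s (Fam.pt F ω) j * F.d ω j - (∑ j, bv F i₁ ω j *
                   eval (rbp J i₁ (Fam.pt F ω)) (pderiv j (G (ptr F r ω))) -
                   eval (rbp J i₁ (Fam.pt F ω)) (pderiv i₁ (G (ptr F r ω)))) := by
               rw [← Finset.add_sum_erase univ (fun j => bv F i₁ ω j *
                   eval (rbp J i₁ (Fam.pt F ω)) (pderiv j (G (ptr F r ω)))) (Finset.mem_univ i₁),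
                 ← Finset.add_sum_erase univ (fun j => s (Fam.pt F ω) j * F.d ω j)
                   (Finset.mem_univ i₁),
                 ← Finset.add_sum_erase univ (fun j => (if j = i₁ then (0 : ℝ) else
                   s (Fam.pt F ω) j - eval (rbp J i₁ (Fam.pt F ω)) (pderiv j (G (ptr F r ω)))) *
                   F.d ω j) (Finset.mem_univ i₁)]
               simp only [if_true, bv_self, hs0, zero_mul, one_mul, zero_add]
               have e3 : ∀ j ∈ univ.erase i₁, (if j = i₁ then (0 : ℝ) else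
                   s (Fam.pt F ω) j - eval (rbp J i₁ (Fam.pt F ω)) (pderiv j (G (ptr F r ω)))) *
                   F.d ω j = s (Fam.pt F ω) j * F.d ω j - bv F i₁ ω j *
                   eval (rbp J i₁ (Fam.pt F ω)) (pderiv j (G (ptr F r ω))) := by
                 intro j hj
                 have hj' := (Finset.mem_erase.1 hj).1
                 rw [if_neg hj', bv_ne F hj']
                 ring
               rw [Finset.sum_congr rfl e3, Finset.sum_sub_distrib]
               ring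
             rw [e2]
             simp only [mul_sub, Finset.sum_sub_distrib]
             ring
           rw [e1]
           have e3 : |∑ j, bv F i₁ ω j * (eval (rbp J i₁ (Fam.pt F ω)) (pderiv j (G (ptr F r ω))) -
                 eval (bp F i₁ ω) (pderiv j (G (ptr F r ω))))| ≤ m * ε₃ := by
             refine (Finset.abs_sum_le_sum_abs _ _).trans ?_
             have : ∀ j ∈ (univ : Finset (Fin m)), |bv F i₁ ω j *
                 (eval (rbp J i₁ (Fam.pt F ω)) (pderiv j (G (ptr F r ω))) -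
                 eval (bp F i₁ ω) (pderiv j (G (ptr F r ω))))| ≤ ε₃ := by
               intro j _
               rw [abs_mul]
               calc _ ≤ 1 * ε₃ := mul_le_mul (bv_le F i₁ ω j) (hround ω hAω j) (abs_nonneg _)
                     zero_le_one
                 _ = ε₃ := one_mul _
             refine (Finset.sum_le_sum this).trans ?_
             rw [Finset.sum_const, Finset.card_univ, Fintype.card_fin, nsmul_eq_mul]
           refine (abs_add_le _ _).trans (add_le_add ?_ ?_)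
           · rw [abs_neg]
             exact (hns ω hAω).2.2
           · exact (abs_sub _ _).trans (add_le_add (hrel ω hA1ω) e3)
         · intro ω hω
           rw [hB] at hω
           exact hω.2
       exact by
        have hPl' : PlU (m - 2) (1 / 2 ^ gJ) (Fam.pt F) F.d B := by
          refine hPl.mono ?_
          have e1 : ε₁ + m * ε₃ ≤ ((2 * C + m * C₃) + m * C₂) / (2 ^ c₀ * 2 ^ gJ) := by
            have : (m : ℝ) * ε₃ ≤ m * (C₂ / (2 ^ c₀ * 2 ^ gJ)) :=
              mul_le_mul_of_nonneg_left hε₃a hm0.le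
            have e2 : ((2 * C + m * C₃) + m * C₂) / (2 ^ c₀ * 2 ^ gJ) =
                (2 * C + m * C₃) / (2 ^ c₀ * 2 ^ gJ) +
                m * (C₂ / (2 ^ c₀ * 2 ^ gJ)) := by ring
            rw [e2]
            linarith only [hε₁a, this]
          have e3 : (1 : ℝ) / 2 ^ h + (1 / 2 ^ h + (ε₁ + m * ε₃)) / (1 / 4) ≤
              (5 + 4 * (2 * C + m * C₃) + 4 * m * C₂) / (2 ^ c₀ * 2 ^ gJ) := by
            have e4 : (5 + 4 * (2 * C + m * C₃) + 4 * m * C₂) / ((2 : ℝ) ^ c₀ * 2 ^ gJ) =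
                5 * (1 / (2 ^ c₀ * 2 ^ gJ)) +
                  4 * (((2 * C + m * C₃) + m * C₂) / (2 ^ c₀ * 2 ^ gJ)) := by ring
            rw [e4]
            have e5 : (1 / (2 : ℝ) ^ h + (ε₁ + m * ε₃)) / (1 / 4) =
                4 * (1 / 2 ^ h) + 4 * (ε₁ + m * ε₃) := by ring
            rw [e5]
            linarith only [hη, e1]
          refine e3.trans ?_
          rw [div_le_div_iff₀ (by positivity) hg0, one_mul]
          have : (5 + 4 * (2 * C + m * C₃) + 4 * m * C₂) * 2 ^ gJ ≤ 2 ^ c₀ * 2 ^ gJ :=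
            mul_le_mul_of_nonneg_right (by linarith only [hc₀, hKr, hlog2, hlog2']) hg0.le
          exact this
        have hPB : Pe F.p B < 1 / 4 * Pe F.p A := by
          by_contra hcon
          push Not at hcon
          refine hSp B hBsub (le_trans ?_ hcon) hPl'
          refine mul_le_mul_of_nonneg_right ?_ hA.le
          rw [show (1 / 4 : ℝ) = Real.exp (-Real.log 4) by
            rw [Real.exp_neg, Real.exp_log (by norm_num)]; norm_num]
          exact Real.exp_le_exp.2 (by linarith only [hψ])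
        -- (5) the final event
        exact by
         refine ⟨fun ω => A₁ ω ∧ ¬ B ω, fun ω hω => hsub1 ω hω.1, ?_, ?_⟩
         · have e1 : Pe F.p A ≤ Pe F.p (fun ω => A₁ ω ∧ ¬ B ω) +
               (Pe F.p (fun ω => A ω ∧ Real.log (tms q F.T (slam F w) (slam F w ω)).card <
                 ((J - w : ℕ) : ℝ) * Real.log 2 - 4 * θ) + Pe F.p B) := by
             refine Pe_le3 F.isLaw fun ω hω => ?_
             by_cases hc : Real.log (tms q F.T (slam F w) (slam F w ω)).card <
                   ((J - w : ℕ) : ℝ) * Real.log 2 - 4 * θ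
             · exact Or.inr (Or.inl ⟨hω, hc⟩)
             · have hA1 : A₁ ω := by rw [hA₁]; exact ⟨hω, hc⟩
               by_cases hBω : B ω
               · exact Or.inr (Or.inr hBω)
               · exact Or.inl ⟨hA1, hBω⟩
           linarith only [hbad1, hPB, e1]
         refine ⟨G, H, hGd, hHd, ?_⟩
         rintro ω ⟨hA1ω, hBω⟩
         have hAω := hsub1 ω hA1ω
         have hgh := hGH ω hAω
         refine ⟨hgh.1, fun b hb => ⟨?_, ?_⟩⟩
         · -- the gradient at the base point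
           have hβs : ∀ j, |β (Fam.pt F ω) j| ≤ 1 / 4 := by
             intro j
             by_contra hcon
             push Not at hcon
             exact hBω (by rw [hB]; exact ⟨hA1ω, j, hcon.le⟩)
           have hgrad : ∀ j, j ≠ i₁ → |eval (bp F i₁ ω) (pderiv j (G (ptr F r ω)))| ≤ 3 / 2 := by
             intro j hj
             have e1 := hβs j
             have e2 := hround ω hAω j
             have e3 := (hns ω hAω).2.1 j
             rw [hβ] at e1
             simp only [if_neg hj] at e1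
             rw [← hφ' ω] at e1
             rw [abs_le] at e1 e2 e3 ⊢
             constructor <;> linarith only [hε₃b, e2, e3, e1, e1.1, e1.2, e2.1, e2.2, e3.1, e3.2]
           have hgrad1 : |eval (bp F i₁ ω) (pderiv i₁ (G (ptr F r ω)))| ≤ 2 * m - 1 / 4 := by
             have e1 := hrel ω hA1ω
             rw [← Finset.add_sum_erase univ _ (Finset.mem_univ i₁), bv_self, one_mul] at e1
             have e2 : |∑ j ∈ univ.erase i₁, bv F i₁ ω j *
                 eval (bp F i₁ ω) (pderiv j (G (ptr F r ω)))| ≤ (m - 1) * (3 / 2) := by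
               refine (Finset.abs_sum_le_sum_abs _ _).trans ?_
               have : ∀ j ∈ univ.erase i₁, |bv F i₁ ω j *
                   eval (bp F i₁ ω) (pderiv j (G (ptr F r ω)))| ≤ 3 / 2 := by
                 intro j hj
                 rw [abs_mul]
                 calc _ ≤ 1 * (3 / 2) := mul_le_mul (bv_le F i₁ ω j)
                       (hgrad j (Finset.mem_erase.1 hj).1) (abs_nonneg _) zero_le_one
                   _ = 3 / 2 := one_mul _
               refine (Finset.sum_le_sum this).trans ?_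
               rw [Finset.sum_const, Finset.card_erase_of_mem (Finset.mem_univ _), Finset.card_univ,
                 Fintype.card_fin, nsmul_eq_mul, Nat.cast_sub (by omega), Nat.cast_one]
             have e3 := F.dir ω i₁
             rw [abs_le] at e1 e2 e3 ⊢
             constructor <;> linarith only [hmr, hlog2, hlog2', hε₁b, e1, e2, e3, e1.1, e1.2, e2.1, e2.2, e3.1, e3.2]
           have hball : (1 : ℝ) / 2 ^ (w + S + c₀) ≤ 2 * (1 / 2 ^ w) := by
             have e1 : (1 : ℝ) / 2 ^ (w + S + c₀) ≤ 1 / 2 ^ w := inv_mono (by omega)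
             have e2 : (0 : ℝ) < 1 / 2 ^ w := by positivity
             linarith only [e1, e2]
           have hmv : C₂ * (2 ^ S / (1 / 2 ^ w)) * (1 / 2 ^ (w + S + c₀)) ≤ 1 / 4 := by
             have e1 : C₂ * (2 ^ S / (1 / 2 ^ w)) * (1 / 2 ^ (w + S + c₀)) = C₂ / (2 : ℝ) ^ c₀ := by
               rw [pow_add, pow_add]
               field_simp
             rw [e1, div_le_div_iff₀ hc0 (by norm_num)]
             linarith only [hc₀, hKr, hlog2, hlog2', hCC, hC₂m]
           intro j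
           have e1 := hmove ω hAω b _ hb hball j
           have e2 := e1.trans hmv
           have e3 : |eval (bp F i₁ ω) (pderiv j (G (ptr F r ω)))| ≤ 2 * m - 1 / 4 := by
             by_cases hj : j = i₁
             · rw [hj]; exact hgrad1
             · exact (hgrad j hj).trans (by linarith only [hmr, hlog2, hlog2'])
           rw [abs_le] at e2 e3 ⊢
           constructor <;> linarith only [e2, e3, e2.1, e2.2, e3.1, e3.2]
         · exact (hgh.2 b fun j => (hb j).trans (inv_mono (by omega))).2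

end Pool.GLM
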