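import Pool.Agent.H78.GLM.Lin

/-!
# Affine substitutions in polynomials, second derivatives
-/

set_option autoImplicit false

namespace Pool.GLM

open Finset Real MvPolynomial

variable {n : ℕ}

/-- The polynomial `P (a + r y)`. -/
noncomputable def aff (a : Fin n → ℝ) (r : ℝ) (P : MvPolynomial (Fin n) ℝ) :
    MvPolynomial (Fin n) ℝ :=
  aeval (fun i => C (a i) + C r * X i) P

lemma eval_aff (a : Fin n → ℝ) (r : ℝ) (P : MvPolynomial (Fin n) ℝ) (y : Fin n → ℝ) :
    eval y (aff a r P) = eval (fun i => a i + r * y i) P := by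
  unfold aff
  induction P using MvPolynomial.induction_on with
  | C c => simp
  | add p q hp hq => rw [map_add, map_add, map_add, hp, hq]
  | mul_X p i hp =>
    rw [map_mul, map_mul, map_mul, hp, aeval_X, eval_X]
    simp

lemma totalDegree_aff (a : Fin n → ℝ) (r : ℝ) {P : MvPolynomial (Fin n) ℝ} {D : ℕ}
    (hP : P.totalDegree ≤ D) : (aff a r P).totalDegree ≤ D := by
  unfold aff
  rw [aeval_def, eval₂_eq']
  refine totalDegree_finsetSum_le fun k hk => ?_
  have h1 : (algebraMap ℝ (MvPolynomial (Fin n) ℝ)) (coeff k P) = C (coeff k P) := rfl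
  rw [h1]
  refine (totalDegree_mul _ _).trans ?_
  rw [totalDegree_C, zero_add]
  refine (totalDegree_finsetProd _ _).trans ?_
  have h2 : ∀ i : Fin n, ((C (a i) + C r * X i : MvPolynomial (Fin n) ℝ) ^ (k i)).totalDegree ≤
      k i := by
    intro i
    refine (totalDegree_pow _ _).trans ?_
    have : (C (a i) + C r * X i : MvPolynomial (Fin n) ℝ).totalDegree ≤ 1 := by
      refine (totalDegree_add _ _).trans (max_le ?_ ?_)
      · rw [totalDegree_C]; exact Nat.zero_le _
      · refine (totalDegree_mul _ _).trans ?_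
        rw [totalDegree_C, totalDegree_X]
    calc k i * _ ≤ k i * 1 := Nat.mul_le_mul_left _ this
      _ = k i := mul_one _
  refine (Finset.sum_le_sum fun i _ => h2 i).trans ?_
  have h3 := le_totalDegree hk
  have h4 : (k.sum fun _ e => e) = ∑ i, k i := Finsupp.sum_fintype _ _ (fun _ => rfl)
  omega

lemma pderiv_aff (a : Fin n → ℝ) (r : ℝ) (P : MvPolynomial (Fin n) ℝ) (j : Fin n) :
    pderiv j (aff a r P) = C r * aff a r (pderiv j P) := by
  unfold aff
  induction P using MvPolynomial.induction_on with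
  | C c =>
    rw [pderiv_C, map_zero, mul_zero, aeval_C]
    exact pderiv_C
  | add p q hp hq => rw [map_add, map_add, hp, hq, map_add, map_add, mul_add]
  | mul_X p l hp =>
    rw [map_mul, aeval_X, Derivation.leibniz, hp, Derivation.leibniz]
    simp only [smul_eq_mul, map_add, map_mul, aeval_X, pderiv_C, Derivation.leibniz]
    by_cases h : l = j
    · subst h
      rw [pderiv_X_self, map_one]
      ring
    · rw [pderiv_X_of_ne h]
      simp only [map_zero]
      ring

/-- If the gradient is at most `S` on the cube with centre `b₀` and radius `r`, then it moves by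
at most `C S / r * δ` on the cube of radius `δ ≤ 2 r`. -/
theorem grad_move (n D : ℕ) : ∃ C₂ : ℝ, 1 ≤ C₂ ∧ ∀ (G : MvPolynomial (Fin n) ℝ) (b₀ : Fin n → ℝ)
    (r S : ℝ), G.totalDegree ≤ D → 0 < r → 0 ≤ S →
    (∀ b : Fin n → ℝ, (∀ j, |b j - b₀ j| ≤ r) → ∀ j, |eval b (pderiv j G)| ≤ S) →
    ∀ (b : Fin n → ℝ) (δ : ℝ), (∀ j, |b j - b₀ j| ≤ δ) → δ ≤ 2 * r → ∀ j,
      |eval b (pderiv j G) - eval b₀ (pderiv j G)| ≤ C₂ * (S / r) * δ := by
  obtain ⟨C₁, hC₁0, hC₁⟩ := Pool.Agent.H36.KBX.der_bound n D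
  have hnC : (0 : ℝ) ≤ n * C₁ := by positivity
  refine ⟨n * C₁ + 1, by linarith, ?_⟩
  intro G b₀ r S hG hr hS h b δ hb hδ j
  rcases Nat.eq_zero_or_pos n with hn | hn
  · subst hn
    exact Fin.elim0 j
  have hδ0 : 0 ≤ δ := (abs_nonneg _).trans (hb ⟨0, hn⟩)
  set R := aff b₀ r (pderiv j G) with hR
  have hRd : R.totalDegree ≤ D :=
    totalDegree_aff _ _ ((Pool.Agent.H50.PW.totalDegree_pderiv_le G j).trans hG)
  have hR1 : ∀ y : Fin n → ℝ, (∀ i, |y i| ≤ 1) → |eval y R| ≤ S := by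
    intro y hy
    rw [hR, eval_aff]
    refine h _ (fun i => ?_) j
    rw [add_sub_cancel_left, abs_mul, abs_of_pos hr]
    exact mul_le_of_le_one_right hr.le (hy i)
  have hR2 : ∀ y : Fin n → ℝ, (∀ i, |y i| ≤ 2) → ∀ i, |eval y (pderiv i R)| ≤ C₁ * S :=
    fun y hy => (hC₁ R S hRd hR1 y hy).2.1
  -- the segment
  set E : Fin n → ℝ := fun i => (b i - b₀ i) / r with hE
  have hEδ : ∀ i, |E i| ≤ δ / r := by
    intro i
    rw [hE]
    simp only
    rw [abs_div, abs_of_pos hr]
    exact div_le_div_of_nonneg_right (hb i) hr.le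
  have hδr : δ / r ≤ 2 := by
    rw [div_le_iff₀ hr]
    exact hδ
  set g : Polynomial ℝ := Pool.BFL.ln R (fun _ => 0) E with hg
  have hg' : ∀ x ∈ Set.Icc (0 : ℝ) 1, |g.derivative.eval x| ≤ n * (δ / r) * (C₁ * S) := by
    intro x hx
    rw [hg, Pool.BFL.ln_derivative, Polynomial.eval_finsetSum]
    refine (Finset.abs_sum_le_sum_abs _ _).trans ?_
    have : ∀ i ∈ (univ : Finset (Fin n)), |Polynomial.eval x (Polynomial.C (E i) *
        Pool.BFL.ln (pderiv i R) (fun _ => 0) E)| ≤ δ / r * (C₁ * S) := by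
      intro i _
      rw [Polynomial.eval_mul, Polynomial.eval_C, Pool.BFL.ln_eval, abs_mul]
      refine mul_le_mul (hEδ i) (hR2 _ (fun l => ?_) i) (abs_nonneg _) (by positivity)
      rw [zero_add, abs_mul, abs_of_nonneg hx.1]
      calc |E l| * x ≤ |E l| * 1 := mul_le_mul_of_nonneg_left hx.2 (abs_nonneg _)
        _ = |E l| := mul_one _
        _ ≤ 2 := (hEδ l).trans hδr
    refine (Finset.sum_le_sum this).trans ?_
    rw [Finset.sum_const, Finset.card_univ, Fintype.card_fin, nsmul_eq_mul]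
    exact le_of_eq (by ring)
  have hmv := Convex.norm_image_sub_le_of_norm_deriv_le (𝕜 := ℝ) (f := fun x => g.eval x)
    (s := Set.Icc (0 : ℝ) 1) (C := n * (δ / r) * (C₁ * S)) (x := 0) (y := 1)
    (fun x _ => g.differentiableAt) (fun x hx => by
      rw [Polynomial.deriv]
      exact hg' x hx) (convex_Icc 0 1) (by simp) (by simp)
  simp only [sub_zero, norm_one, mul_one] at hmv
  have e1 : g.eval 1 = eval b (pderiv j G) := by
    rw [hg, Pool.BFL.ln_eval, hR, eval_aff]
    congr 1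
    congr 1
    funext i
    rw [hE]
    simp only
    field_simp
    ring
  have e0 : g.eval 0 = eval b₀ (pderiv j G) := by
    rw [hg, Pool.BFL.ln_eval, hR, eval_aff]
    congr 1
    congr 1
    funext i
    simp
  rw [e1, e0, Real.norm_eq_abs] at hmv
  refine hmv.trans ?_
  have : (n : ℝ) * (δ / r) * (C₁ * S) = n * C₁ * (S / r) * δ := by ring
  rw [this]
  have h2 : 0 ≤ S / r * δ := by positivity
  nlinarith

/-- The values of a polynomial at two near points. -/
theorem val_move {G : MvPolynomial (Fin n) ℝ} {a : Fin n → ℝ} {r S δ : ℝ}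
    (h : ∀ y : Fin n → ℝ, (∀ i, |y i - a i| ≤ r) → ∀ i, |eval y (pderiv i G)| ≤ S)
    {y z : Fin n → ℝ} (hy : ∀ i, |y i - a i| ≤ r) (hz : ∀ i, |z i - a i| ≤ r)
    (hyz : ∀ i, |y i - z i| ≤ δ) : |eval y G - eval z G| ≤ n * (S * δ) := by
  rcases Nat.eq_zero_or_pos n with hn | hn
  · subst hn
    have : y = z := funext fun i => i.elim0
    rw [this, sub_self, abs_zero]
    simp
  have hδ0 : 0 ≤ δ := (abs_nonneg _).trans (hyz ⟨0, hn⟩)
  have hS0 : 0 ≤ S := (abs_nonneg _).trans (h y hy ⟨0, hn⟩)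
  set g : Polynomial ℝ := Pool.BFL.ln G z (fun i => y i - z i) with hg
  have hg' : ∀ x ∈ Set.Icc (0 : ℝ) 1, |g.derivative.eval x| ≤ n * (S * δ) := by
    intro x hx
    rw [hg, Pool.BFL.ln_derivative, Polynomial.eval_finsetSum]
    refine (Finset.abs_sum_le_sum_abs _ _).trans ?_
    have : ∀ i ∈ (univ : Finset (Fin n)), |Polynomial.eval x (Polynomial.C (y i - z i) *
        Pool.BFL.ln (pderiv i G) z (fun i => y i - z i))| ≤ S * δ := by
      intro i _
      rw [Polynomial.eval_mul, Polynomial.eval_C, Pool.BFL.ln_eval, abs_mul, mul_comm]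
      refine mul_le_mul (h _ (fun l => ?_) i) (hyz i) (abs_nonneg _) hS0
      have e1 : z l + (y l - z l) * x - a l = (1 - x) * (z l - a l) + x * (y l - a l) := by ring
      rw [e1]
      have h1 := abs_le.1 (hy l)
      have h2 := abs_le.1 (hz l)
      have h3 : 0 ≤ 1 - x := by linarith [hx.2]
      rw [abs_le]
      constructor <;> nlinarith [h1.1, h1.2, h2.1, h2.2, hx.1]
    refine (Finset.sum_le_sum this).trans ?_
    rw [Finset.sum_const, Finset.card_univ, Fintype.card_fin, nsmul_eq_mul]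
  have hmv := Convex.norm_image_sub_le_of_norm_deriv_le (𝕜 := ℝ) (f := fun x => g.eval x)
    (s := Set.Icc (0 : ℝ) 1) (C := n * (S * δ)) (x := 0) (y := 1)
    (fun x _ => g.differentiableAt) (fun x hx => by
      rw [Polynomial.deriv]
      exact hg' x hx) (convex_Icc 0 1) (by simp) (by simp)
  simp only [sub_zero, norm_one, mul_one] at hmv
  have e1 : g.eval 1 = eval y G := by
    rw [hg, Pool.BFL.ln_eval]
    congr 1
    congr 1
    funext i
    ring
  have e0 : g.eval 0 = eval z G := by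
    rw [hg, Pool.BFL.ln_eval]
    congr 1
    congr 1
    funext i
    ring
  rwa [e1, e0, Real.norm_eq_abs] at hmv

/-- The gradient of a polynomial which is small on a cube. -/
theorem grad_small (n D : ℕ) : ∃ C₃ : ℝ, 1 ≤ C₃ ∧ ∀ (R : MvPolynomial (Fin n) ℝ) (b₀ : Fin n → ℝ)
    (r η : ℝ), R.totalDegree ≤ D → 0 < r →
    (∀ b : Fin n → ℝ, (∀ j, |b j - b₀ j| ≤ r) → |eval b R| ≤ η) →
    ∀ j, |eval b₀ (pderiv j R)| ≤ C₃ * (η / r) := by
  obtain ⟨C₁, hC₁0, hC₁⟩ := Pool.Agent.H36.KBX.der_bound n D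
  refine ⟨C₁ + 1, by linarith, ?_⟩
  intro R b₀ r η hR hr h j
  have hη : 0 ≤ η := (abs_nonneg _).trans (h b₀ fun j => by simp [hr.le])
  have h1 := (hC₁ (aff b₀ r R) η (totalDegree_aff _ _ hR) (fun y hy => by
    rw [eval_aff]
    refine h _ fun i => ?_
    rw [add_sub_cancel_left, abs_mul, abs_of_pos hr]
    exact mul_le_of_le_one_right hr.le (hy i)) (fun _ => 0) (by simp)).2.1 j
  rw [pderiv_aff, map_mul, eval_C, eval_aff, abs_mul, abs_of_pos hr] at h1
  simp only [mul_zero, add_zero] at h1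
  have h2 : |eval b₀ (pderiv j R)| ≤ C₁ * η / r := by
    rw [le_div_iff₀ hr, mul_comm]
    exact h1
  refine h2.trans ?_
  have h3 : 0 ≤ η / r := by positivity
  calc C₁ * η / r = C₁ * (η / r) := by ring
    _ ≤ _ := by nlinarith

end Pool.GLM
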