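import Pool.Agent.H78.GLM.Rel
import Pool.Agent.H78.GLM.Aff

/-!
# From exact polynomial labels to labels

The gradient of an exact polynomial label is bounded by the spread of the fans and the chart.
-/

set_option autoImplicit false

namespace Pool.GLM

open Finset Real MvPolynomial
open Pool.Agent.H49.Ent Pool.Agent.H32.Dense Pool.STK Pool.KA Pool.KSAT Pool.K2S Pool.PB

variable {m J : ℕ}

/-- Two independent relations for the coordinates of a vector: the vector is near a plane of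
dimension `m - 2`. -/
theorem plane (hm : 2 ≤ m) {i₁ j₀ : Fin m} (hne : j₀ ≠ i₁) (n β₀ : ℝ) (s β : Fin m → ℝ)
    (hs : s i₁ = 0) (hs1 : |s j₀| ≤ 1) (hβ : β i₁ = 0) {ε : ℝ} (hε : 0 < ε) (hb : ε ≤ |β j₀|) :
    ∃ S : (Fin m → ℝ) × (Fin (m - 2) → Fin m → ℝ), ∀ (D : Fin m → ℝ) (η₁ ε₂ : ℝ),
      |D i₁ - n - ∑ j, s j * D j| ≤ η₁ → |β₀ + ∑ j, β j * D j| ≤ ε₂ →
      ∃ c : Fin (m - 2) → ℝ, ∀ i, |D i - S.1 i - ∑ l, c l * S.2 l i| ≤ η₁ + ε₂ / ε := by
  classical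
  have hcard : Fintype.card {j : Fin m // j ≠ i₁ ∧ j ≠ j₀} = m - 2 := by
    rw [Fintype.card_subtype]
    have : (univ.filter fun j : Fin m => j ≠ i₁ ∧ j ≠ j₀) = (univ.erase i₁).erase j₀ := by
      ext j
      simp only [Finset.mem_filter, Finset.mem_univ, true_and, Finset.mem_erase, and_true]
      exact and_comm
    rw [this, Finset.card_erase_of_mem (by simp [hne]), Finset.card_erase_of_mem (by simp),
      Finset.card_univ, Fintype.card_fin]
    omega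
  obtain ⟨e⟩ : Nonempty (Fin (m - 2) ≃ {j : Fin m // j ≠ i₁ ∧ j ≠ j₀}) :=
    ⟨Fintype.equivOfCardEq (by rw [Fintype.card_fin, hcard])⟩
  have hb0 : β j₀ ≠ 0 := by
    intro h
    rw [h, abs_zero] at hb
    linarith
  -- sums
  have hsum : ∀ f : Fin m → ℝ, ∑ j, f j = f i₁ + f j₀ + ∑ l, f (e l) := by
    intro f
    have h1 : ∑ l, f (e l) = ∑ x : {j : Fin m // j ≠ i₁ ∧ j ≠ j₀}, f x :=
      Equiv.sum_comp e (fun x : {j : Fin m // j ≠ i₁ ∧ j ≠ j₀} => f x)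
    have h2 : ∑ j ∈ (univ.erase i₁).erase j₀, f j =
        ∑ x : {j : Fin m // j ≠ i₁ ∧ j ≠ j₀}, f x := by
      refine Finset.sum_subtype _ (fun j => ?_) f
      simp only [Finset.mem_erase, Finset.mem_univ, and_true]
      exact and_comm
    rw [h1, ← h2, ← Finset.add_sum_erase univ f (Finset.mem_univ i₁),
      ← Finset.add_sum_erase (univ.erase i₁) f (show j₀ ∈ univ.erase i₁ by simp [hne])]
    ring
  refine ⟨(fun i => if i = j₀ then -β₀ / β j₀ else if i = i₁ then n + s j₀ * (-β₀ / β j₀) else 0,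
    fun l i => if i = j₀ then -β (e l) / β j₀ else if i = i₁ then
      s (e l) + s j₀ * (-β (e l) / β j₀) else if i = e l then 1 else 0), ?_⟩
  intro D η₁ ε₂ h1 h2
  have hη : 0 ≤ η₁ := (abs_nonneg _).trans h1
  have hε₂ : 0 ≤ ε₂ := (abs_nonneg _).trans h2
  have hq : 0 ≤ ε₂ / ε := by positivity
  set Δ : ℝ := (β₀ + ∑ j, β j * D j) / β j₀ with hΔ
  have hΔ1 : |Δ| ≤ ε₂ / ε := by
    rw [hΔ, abs_div]
    exact div_le_div₀ hε₂ h2 hε hb
  have hΔ2 : Δ = D j₀ + β₀ / β j₀ + ∑ l, D (e l) * (β (e l) / β j₀) := by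
    rw [hΔ, hsum, hβ]
    have : ∑ l, D (e l) * (β (e l) / β j₀) = (∑ l, β (e l) * D (e l)) / β j₀ := by
      rw [Finset.sum_div]
      refine Finset.sum_congr rfl fun l _ => ?_
      ring
    rw [this]
    field_simp
    ring
  refine ⟨fun l => D (e l), fun i => ?_⟩
  simp only
  by_cases hi : i = j₀
  · subst hi
    simp only [if_true]
    have e1 : D i - -β₀ / β i - ∑ l, D (e l) * (-β (e l) / β i) = Δ := by
      rw [hΔ2]
      have : ∑ l, D (e l) * (-β (e l) / β i) = -∑ l, D (e l) * (β (e l) / β i) := by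
        rw [← Finset.sum_neg_distrib]
        refine Finset.sum_congr rfl fun l _ => ?_
        ring
      rw [this]
      ring
    rw [e1]
    linarith
  by_cases hi' : i = i₁
  · subst hi'
    simp only [if_neg hi, if_true]
    have e1 : D i - (n + s j₀ * (-β₀ / β j₀)) -
        ∑ l, D (e l) * (s (e l) + s j₀ * (-β (e l) / β j₀)) =
        (D i - n - ∑ j, s j * D j) + s j₀ * Δ := by
      rw [hΔ2, hsum, hs]
      have : ∑ l, D (e l) * (s (e l) + s j₀ * (-β (e l) / β j₀)) =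
          ∑ l, s (e l) * D (e l) - s j₀ * ∑ l, D (e l) * (β (e l) / β j₀) := by
        rw [Finset.mul_sum, ← Finset.sum_sub_distrib]
        refine Finset.sum_congr rfl fun l _ => ?_
        ring
      rw [this]
      ring
    rw [e1]
    refine (abs_add_le _ _).trans (add_le_add h1 ?_)
    rw [abs_mul]
    calc |s j₀| * |Δ| ≤ 1 * (ε₂ / ε) := mul_le_mul hs1 hΔ1 (abs_nonneg _) zero_le_one
      _ = _ := one_mul _
  · simp only [if_neg hi, if_neg hi']
    have e1 : ∑ l, D (e l) * (if i = (e l : Fin m) then (1 : ℝ) else 0) = D i := by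
      rw [Finset.sum_eq_single (e.symm ⟨i, hi', hi⟩)]
      · simp
      · intro l _ hl
        rw [if_neg, mul_zero]
        intro h
        refine hl ?_
        rw [Equiv.eq_symm_apply]
        exact Subtype.ext h.symm
      · intro h
        exact absurd (Finset.mem_univ _) h
    rw [e1, sub_zero, sub_self, abs_zero]
    linarith

/-- Two relations for the velocity at the exact points: the fans are near planes. -/
theorem plU_of_rel (F : Fam m J) (hm : 2 ≤ m) {i₁ : Fin m} {B : F.Ω → Prop}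
    (n β₀ : (Fin m → ℤ) × (ℕ × F.ζ) → ℝ) (s β : (Fin m → ℤ) × (ℕ × F.ζ) → Fin m → ℝ)
    {η₁ ε₂ ε : ℝ} (hε : 0 < ε)
    (hs : ∀ ω, B ω → s (Fam.pt F ω) i₁ = 0 ∧ (∀ j, |s (Fam.pt F ω) j| ≤ 1) ∧
      |F.d ω i₁ - n (Fam.pt F ω) - ∑ j, s (Fam.pt F ω) j * F.d ω j| ≤ η₁)
    (hβ : ∀ ω, B ω → β (Fam.pt F ω) i₁ = 0 ∧
      |β₀ (Fam.pt F ω) + ∑ j, β (Fam.pt F ω) j * F.d ω j| ≤ ε₂)
    (hb : ∀ ω, B ω → ∃ j, ε ≤ |β (Fam.pt F ω) j|) :
    PlU (m - 2) (η₁ + ε₂ / ε) (Fam.pt F) F.d B := by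
  have key : ∀ y : (Fin m → ℤ) × (ℕ × F.ζ), ∃ S : (Fin m → ℝ) × (Fin (m - 2) → Fin m → ℝ),
      ∀ ω, B ω → Fam.pt F ω = y → ∃ c : Fin (m - 2) → ℝ, ∀ i,
        |F.d ω i - S.1 i - ∑ l, c l * S.2 l i| ≤ η₁ + ε₂ / ε := by
    intro y
    by_cases h : ∃ ω, B ω ∧ Fam.pt F ω = y
    · obtain ⟨ω₀, hω₀, hy⟩ := h
      obtain ⟨j₀, hj₀⟩ := hb ω₀ hω₀
      rw [hy] at hj₀
      have h1 := hs ω₀ hω₀
      have h2 := hβ ω₀ hω₀
      rw [hy] at h1 h2
      have hne : j₀ ≠ i₁ := by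
        rintro rfl
        rw [h2.1, abs_zero] at hj₀
        linarith
      obtain ⟨S, hS⟩ := plane hm hne (n y) (β₀ y) (s y) (β y) h1.1 (h1.2.1 j₀) h2.1 hε hj₀
      refine ⟨S, fun ω hω hωy => ?_⟩
      have h3 := hs ω hω
      have h4 := hβ ω hω
      rw [hωy] at h3 h4
      exact hS (F.d ω) η₁ ε₂ h3.2.2 h4.2
    · exact ⟨(fun _ => 0, fun _ _ => 0), fun ω hω hωy => absurd ⟨ω, hω, hωy⟩ h⟩
  choose S hS using key
  exact ⟨S, fun ω hω => hS _ ω hω rfl⟩

end Pool.GLM
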