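import Pool.Agent.H33.KAL.RMG
import Pool.Agent.H36.KBX.Coef
import Pool.Agent.H39.BFL.Alg

/-!
# The derivative of a polynomial which is small at many grid points
-/

set_option autoImplicit false

namespace Pool.GLM

open Finset Real Polynomial

/-- A polynomial of one variable as a polynomial in `Fin 1` variables. -/
noncomputable def mv1 (Q : ℝ[X]) : MvPolynomial (Fin 1) ℝ := Polynomial.aeval (MvPolynomial.X 0) Q

lemma mv1_eval (Q : ℝ[X]) (y : Fin 1 → ℝ) : MvPolynomial.eval y (mv1 Q) = Q.eval (y 0) := by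
  unfold mv1
  induction Q using Polynomial.induction_on' with
  | add p q hp hq => rw [map_add, map_add, Polynomial.eval_add, hp, hq]
  | monomial n a =>
    rw [Polynomial.aeval_monomial, Polynomial.eval_monomial, map_mul, map_pow,
      MvPolynomial.eval_X, MvPolynomial.algebraMap_eq, MvPolynomial.eval_C]

lemma mv1_totalDegree {Q : ℝ[X]} {k : ℕ} (h : Q.natDegree ≤ k) : (mv1 Q).totalDegree ≤ k := by
  unfold mv1
  rw [Polynomial.aeval_eq_sum_range]
  refine MvPolynomial.totalDegree_finsetSum_le fun i hi => ?_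
  rw [Finset.mem_range] at hi
  refine (MvPolynomial.totalDegree_smul_le _ _).trans ?_
  refine (MvPolynomial.totalDegree_pow _ _).trans ?_
  rw [MvPolynomial.totalDegree_X, mul_one]
  omega

lemma mv1_pderiv (Q : ℝ[X]) : MvPolynomial.pderiv 0 (mv1 Q) = mv1 Q.derivative := by
  unfold mv1
  rw [Derivation.map_aeval, MvPolynomial.pderiv_X_self, smul_eq_mul, mul_one]

/-- The derivative at zero of a polynomial bounded on `[-1, 1]`. -/
theorem der1 (k : ℕ) : ∃ C : ℝ, 0 ≤ C ∧ ∀ (Q : ℝ[X]) (M : ℝ), Q.natDegree ≤ k →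
    (∀ x : ℝ, |x| ≤ 1 → |Q.eval x| ≤ M) → |Q.derivative.eval 0| ≤ C * M := by
  obtain ⟨C, hC0, hC⟩ := Pool.Agent.H36.KBX.der_bound 1 k
  refine ⟨C, hC0, fun Q M hQ hM => ?_⟩
  have h := (hC (mv1 Q) M (mv1_totalDegree hQ) (fun y hy => by
    rw [mv1_eval]; exact hM _ (hy 0)) (fun _ => 0) (by simp)).2.1 0
  rwa [mv1_pderiv, mv1_eval] at h

/-- A polynomial which is at most `M` at a proportion `ρ` of the grid points of an interval with
`L` points: the values on a larger interval. -/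
theorem grid_val (k : ℕ) (hk : 1 ≤ k) (P : ℝ[X]) (E : Finset ℕ) (u L : ℕ)
    (ρ M t : ℝ) (hP : P.natDegree ≤ k) (hρ : 0 < ρ) (hEu : ∀ e ∈ E, u ≤ e ∧ e < u + L)
    (hEc : ρ * L ≤ E.card) (hL : (k : ℝ) + 1 ≤ ρ * L) (hE : ∀ e ∈ E, |P.eval (e : ℝ)| ≤ M)
    (ht1 : (u : ℝ) - L ≤ t) (ht2 : t ≤ u + 2 * L) :
    |P.eval t| ≤ ((k : ℝ) + 1) * (4 * k / ρ) ^ k * M := by
  classical
  have hk0 : (0 : ℝ) < k := by exact_mod_cast hk
  have hL0 : (0 : ℝ) < L := by
    by_contra h
    push Not at h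
    have : ρ * L ≤ 0 := mul_nonpos_of_nonneg_of_nonpos hρ.le h
    linarith
  -- the grid step
  set s : ℕ := (E.card - 1) / k with hs
  have hcard : k + 1 ≤ E.card := by
    have : ((k + 1 : ℕ) : ℝ) ≤ E.card := by push_cast; linarith
    exact_mod_cast this
  have hs1 : 1 ≤ s := by
    rw [hs, Nat.one_le_div_iff (by omega)]
    omega
  have hs2 : s * k + 1 ≤ E.card := by
    have := Nat.div_mul_le_self (E.card - 1) k
    rw [← hs] at this
    omega
  have hs3 : (E.card : ℝ) ≤ 2 * k * s := by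
    have h1 : E.card - 1 < s * k + k := by
      have := Nat.lt_div_mul_add (a := E.card - 1) (b := k) (by omega)
      rwa [← hs] at this
    have h2 : E.card ≤ s * k + k := by omega
    have h3 : k ≤ s * k := Nat.le_mul_of_pos_left k (by omega)
    have h4 : E.card ≤ 2 * k * s := by
      calc E.card ≤ s * k + k := h2
        _ ≤ s * k + s * k := by omega
        _ = 2 * k * s := by ring
    exact_mod_cast h4
  have hs0 : (0 : ℝ) < s := by exact_mod_cast hs1
  have hM0 : 0 ≤ M := by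
    obtain ⟨e, he⟩ := Finset.card_pos.1 (show 0 < E.card by omega)
    exact (abs_nonneg _).trans (hE e he)
  have b1 : ∀ e ∈ E.image (fun n : ℕ => (n : ℤ)), |t - (e : ℝ)| ≤ 2 * L := by
    intro e he
    obtain ⟨n, hn, rfl⟩ := Finset.mem_image.1 he
    have h1 := hEu n hn
    have h2 : (u : ℝ) ≤ n := by exact_mod_cast h1.1
    have h3 : (n : ℝ) < u + L := by exact_mod_cast h1.2
    rw [abs_le]
    push_cast
    constructor <;> linarith
  have b2 : ∀ e ∈ E.image (fun n : ℕ => (n : ℤ)), |P.eval (e : ℝ)| ≤ M := by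
    intro e he
    obtain ⟨n, hn, rfl⟩ := Finset.mem_image.1 he
    exact_mod_cast hE n hn
  have b3 : (E.image (fun n : ℕ => (n : ℤ))).card = E.card :=
    Finset.card_image_of_injective _ Nat.cast_injective
  have b4 := Pool.KAL.rmg_thm k s P (E.image (fun n : ℕ => (n : ℤ))) t (2 * L) M hP hs1
    (by rw [b3]; exact hs2) b1 b2
  refine b4.trans ?_
  have b5 : 2 * (L : ℝ) / s ≤ 4 * k / ρ := by
    rw [div_le_div_iff₀ hs0 hρ]
    have : (L : ℝ) * ρ ≤ 2 * k * s := by linarith
    nlinarith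
  gcongr

/-- A polynomial which is at most `M` at a proportion `ρ` of the grid points of an interval with
`L` points: the derivative at the points of the interval. -/
theorem grid_der (k : ℕ) (hk : 1 ≤ k) : ∃ C : ℝ, 1 ≤ C ∧ ∀ (P : ℝ[X]) (E : Finset ℕ) (u L : ℕ)
    (ρ M t : ℝ), P.natDegree ≤ k → 0 < ρ → (∀ e ∈ E, u ≤ e ∧ e < u + L) → ρ * L ≤ E.card →
    (k : ℝ) + 1 ≤ ρ * L → (∀ e ∈ E, |P.eval (e : ℝ)| ≤ M) → (u : ℝ) ≤ t → t ≤ u + L →
    |P.derivative.eval t| * L ≤ C * (1 / ρ) ^ k * M := by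
  classical
  obtain ⟨C, hC0, hC⟩ := der1 k
  have hk0 : (0 : ℝ) < k := by exact_mod_cast hk
  refine ⟨max 1 (C * (((k : ℝ) + 1) * (4 * k) ^ k)), le_max_left _ _, ?_⟩
  intro P E u L ρ M t hP hρ hEu hEc hL hE ht1 ht2
  have hL0 : (0 : ℝ) < L := by
    by_contra h
    push Not at h
    have : ρ * L ≤ 0 := mul_nonpos_of_nonneg_of_nonpos hρ.le h
    linarith
  have hM0 : 0 ≤ M := by
    have hpos : 0 < E.card := by
      have : (0 : ℝ) < E.card := by linarith
      exact_mod_cast this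
    obtain ⟨e, he⟩ := Finset.card_pos.1 hpos
    exact (abs_nonneg _).trans (hE e he)
  have key : ∀ x : ℝ, |x| ≤ 1 → |P.eval (t + L * x)| ≤ ((k : ℝ) + 1) * (4 * k / ρ) ^ k * M := by
    intro x hx
    rw [abs_le] at hx
    have h4 : L * x ≤ L := by nlinarith
    have h5 : -(L : ℝ) ≤ L * x := by nlinarith
    exact grid_val k hk P E u L ρ M _ hP hρ hEu hEc hL hE (by linarith) (by linarith)
  set Q : ℝ[X] := P.comp (Polynomial.C t + Polynomial.C (L : ℝ) * Polynomial.X) with hQ
  have hQd : Q.natDegree ≤ k := by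
    rw [hQ]
    refine Polynomial.natDegree_comp_le.trans ?_
    have : (Polynomial.C t + Polynomial.C (L : ℝ) * Polynomial.X : ℝ[X]).natDegree ≤ 1 := by
      refine (Polynomial.natDegree_add_le _ _).trans (max_le ?_ ?_)
      · rw [Polynomial.natDegree_C]
        exact Nat.zero_le _
      · exact (Polynomial.natDegree_C_mul_le _ _).trans Polynomial.natDegree_X_le
    calc P.natDegree * _ ≤ k * 1 := Nat.mul_le_mul hP this
      _ = k := mul_one k
  have hQe : ∀ x, Q.eval x = P.eval (t + L * x) := by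
    intro x
    rw [hQ, Polynomial.eval_comp]
    simp
  have hQ' : Q.derivative.eval 0 = L * P.derivative.eval t := by
    rw [hQ, Polynomial.derivative_comp]
    simp
  have h1 := hC Q _ hQd (fun x hx => by rw [hQe]; exact key x hx)
  rw [hQ', abs_mul, abs_of_pos hL0] at h1
  calc |P.derivative.eval t| * L = L * |P.derivative.eval t| := mul_comm _ _
    _ ≤ C * (((k : ℝ) + 1) * (4 * k / ρ) ^ k * M) := h1
    _ = C * (((k : ℝ) + 1) * (4 * k) ^ k) * (1 / ρ) ^ k * M := by
        rw [div_eq_mul_one_div (4 * (k : ℝ)) ρ, mul_pow]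
        ring
    _ ≤ _ := by
        have : 0 ≤ (1 / ρ) ^ k := by positivity
        gcongr
        exact le_max_right _ _

end Pool.GLM
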