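import Pool.Agent.H18.PB.Defs
import Pool.Agent.H78.GLM.Lin

/-!
# Exact polynomial labels: the relation between the velocity and the gradient
-/

set_option autoImplicit false

namespace Pool.GLM

open Finset Real MvPolynomial
open Pool.Agent.H49.Ent Pool.Agent.H32.Dense Pool.STK Pool.KA Pool.KSAT Pool.K2S Pool.PB

variable {m J : ℕ}

/-- The velocity of the base point. -/
noncomputable def bv (F : Fam m J) (i₁ : Fin m) (ω : F.Ω) : Fin m → ℝ :=
  Function.update (F.d ω) i₁ 1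

/-- **Steep polynomial labels**: `Lab` with `a = w` and the bound `2 ^ S` for the gradient. -/
def LabS (F : Fam m J) (i₁ : Fin m) (r K w P S : ℕ) (A : F.Ω → Prop) : Prop :=
  ∃ (G : (Fin m → ℤ) × (ℕ × F.ζ) → MvPolynomial (Fin m) ℝ)
    (H : ((Fin m → ℝ) × (Fin m → ℝ)) × F.ζ × ℕ → MvPolynomial (Fin m) ℝ),
    (∀ y, (G y).totalDegree ≤ K) ∧ (∀ s, (H s).totalDegree ≤ K) ∧ ∀ ω, A ω →
      |F.x ω i₁ - eval (bp F i₁ ω) (G (ptr F r ω))| ≤ 1 / 2 ^ P ∧
      ∀ b : Fin m → ℝ, (∀ j, |b j - bp F i₁ ω j| ≤ 1 / 2 ^ w) →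
        (∀ j, |eval b (pderiv j (G (ptr F r ω)))| ≤ 2 ^ S) ∧
        |eval b (G (ptr F r ω)) - eval b (H (slam F w ω))| ≤ 1 / 2 ^ P

theorem LabS.hered (F : Fam m J) (i₁ : Fin m) (r K w P S : ℕ) :
    Hered (LabS F i₁ r K w P S) := by
  rintro A B hB ⟨G, H, h1, h2, h3⟩
  exact ⟨G, H, h1, h2, fun ω hω => h3 ω (hB ω hω)⟩

lemma bv_self (F : Fam m J) (i₁ : Fin m) (ω : F.Ω) : bv F i₁ ω i₁ = 1 := by
  simp [bv]

lemma bv_ne (F : Fam m J) {i₁ j : Fin m} (h : j ≠ i₁) (ω : F.Ω) : bv F i₁ ω j = F.d ω j := by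
  simp [bv, h]

lemma bp_self (F : Fam m J) (i₁ : Fin m) (ω : F.Ω) : bp F i₁ ω i₁ = F.t ω := by
  simp [bp]

lemma bp_ne (F : Fam m J) {i₁ j : Fin m} (h : j ≠ i₁) (ω : F.Ω) : bp F i₁ ω j = F.x ω j := by
  simp [bp, h]

lemma bv_le (F : Fam m J) (i₁ : Fin m) (ω : F.Ω) (j : Fin m) : |bv F i₁ ω j| ≤ 1 := by
  by_cases h : j = i₁
  · rw [h, bv_self, abs_one]
  · rw [bv_ne F h]
    exact F.dir ω j

/-- The base point of the line of `ω` at the time `e / 2 ^ J`. -/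
noncomputable def bpt (F : Fam m J) (i₁ : Fin m) (ω : F.Ω) (e : ℝ) : Fin m → ℝ :=
  fun j => Function.update (F.u ω) i₁ 0 j + bv F i₁ ω j / 2 ^ J * e

lemma bpt_T (F : Fam m J) (i₁ : Fin m) (ω : F.Ω) : bpt F i₁ ω (F.T ω) = bp F i₁ ω := by
  funext j
  unfold bpt
  by_cases h : j = i₁
  · rw [h, bv_self, bp_self]
    simp only [Function.update_self, Fam.t]
    ring
  · rw [bv_ne F h, bp_ne F h, Function.update_of_ne h]
    unfold Fam.x Fam.t
    ring

lemma bpt_same (F : Fam m J) (i₁ : Fin m) {ω ω' : F.Ω} (h : F.l ω = F.l ω') (e : ℝ) :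
    bpt F i₁ ω e = bpt F i₁ ω' e := by
  have h1 : F.u ω = F.u ω' := (Prod.ext_iff.mp h).1
  have h2 : F.d ω = F.d ω' := (Prod.ext_iff.mp h).2
  funext j
  unfold bpt bv
  rw [h1, h2]

theorem line_rel (K : ℕ) (hK : 1 ≤ K) : ∃ C : ℝ, 1 ≤ C ∧ ∀ (m J : ℕ) (F : Fam m J) (i₁ : Fin m)
    (w : ℕ) (ω : F.Ω) (H : MvPolynomial (Fin m) ℝ) (E : Finset ℕ) (ρ η : ℝ),
    H.totalDegree ≤ K → w ≤ J → 0 < ρ → (∀ e ∈ E, e / 2 ^ (J - w) = F.T1 w ω) →
    ρ * 2 ^ (J - w) ≤ E.card → (K : ℝ) + 1 ≤ ρ * 2 ^ (J - w) →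
    (∀ e ∈ E, |F.u ω i₁ + (e : ℝ) / 2 ^ J * F.d ω i₁ - eval (bpt F i₁ ω e) H| ≤ η) →
    |F.d ω i₁ - ∑ j, bv F i₁ ω j * eval (bp F i₁ ω) (pderiv j H)| ≤
      C * (1 / ρ) ^ K * (2 ^ w * η) := by
  obtain ⟨C, hC1, hC⟩ := grid_der K hK
  refine ⟨C, hC1, ?_⟩
  intro m J F i₁ w ω H E ρ η hH hw hρ hEw hEc hL hE
  set w₀ : Fin m → ℝ := Function.update (F.u ω) i₁ 0 with hw₀
  set Ev : Fin m → ℝ := fun j => bv F i₁ ω j / 2 ^ J with hEv
  set Q : Polynomial ℝ := Polynomial.C (F.u ω i₁) + Polynomial.C (F.d ω i₁ / 2 ^ J) *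
    Polynomial.X - Pool.BFL.ln H w₀ Ev with hQ
  have hbpt : ∀ e : ℝ, (fun i => w₀ i + Ev i * e) = bpt F i₁ ω e := fun e => rfl
  have hQd : Q.natDegree ≤ K := by
    rw [hQ]
    refine (Polynomial.natDegree_sub_le _ _).trans (max_le ?_ (Pool.BFL.ln_natDegree hH _ _))
    refine (Polynomial.natDegree_add_le _ _).trans (max_le ?_ ?_)
    · rw [Polynomial.natDegree_C]
      exact Nat.zero_le _
    · exact ((Polynomial.natDegree_C_mul_le _ _).trans Polynomial.natDegree_X_le).trans hK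
  have hT1 : F.T1 w ω * 2 ^ (J - w) ≤ F.T ω := Nat.div_mul_le_self _ _
  have hT2 : F.T ω < F.T1 w ω * 2 ^ (J - w) + 2 ^ (J - w) := by
    have := Nat.lt_div_mul_add (a := F.T ω) (b := 2 ^ (J - w)) (by positivity)
    exact this
  have h1 := hC Q E (F.T1 w ω * 2 ^ (J - w)) (2 ^ (J - w)) ρ η (F.T ω) hQd hρ
    (fun e he => by
      have h2 := hEw e he
      rw [← h2]
      exact ⟨Nat.div_mul_le_self _ _, Nat.lt_div_mul_add (by positivity)⟩)
    (by push_cast; exact hEc) (by push_cast; exact hL)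
    (fun e he => by
      have h2 := hE e he
      have h3 : Q.eval (e : ℝ) = F.u ω i₁ + (e : ℝ) / 2 ^ J * F.d ω i₁ -
          eval (bpt F i₁ ω e) H := by
        rw [hQ]
        simp only [Polynomial.eval_sub, Polynomial.eval_add, Polynomial.eval_C,
          Polynomial.eval_mul, Polynomial.eval_X, Pool.BFL.ln_eval]
        rw [hbpt]
        ring
      rw [h3]
      exact h2)
    (by exact_mod_cast hT1) (by exact_mod_cast hT2.le)
  have h4 : Q.derivative.eval (F.T ω : ℝ) =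
      (F.d ω i₁ - ∑ j, bv F i₁ ω j * eval (bp F i₁ ω) (pderiv j H)) / 2 ^ J := by
    rw [hQ, Polynomial.derivative_sub, Pool.BFL.ln_derivative]
    simp only [Polynomial.derivative_add, Polynomial.derivative_C, Polynomial.derivative_mul,
      Polynomial.derivative_X, Polynomial.eval_sub, Polynomial.eval_add,
      Polynomial.eval_mul, Polynomial.eval_X, Polynomial.eval_finsetSum, Polynomial.eval_C,
      Polynomial.eval_one, Polynomial.eval_zero, Pool.BFL.ln_eval]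
    rw [hbpt, bpt_T, sub_div, Finset.sum_div]
    have : ∀ j, Ev j * eval (bp F i₁ ω) (pderiv j H) =
        bv F i₁ ω j * eval (bp F i₁ ω) (pderiv j H) / 2 ^ J := by
      intro j
      rw [hEv]
      ring
    rw [Finset.sum_congr rfl fun j _ => this j]
    ring
  rw [h4, abs_div, abs_of_pos (show (0 : ℝ) < 2 ^ J by positivity)] at h1
  push_cast at h1
  have h5 : (2 : ℝ) ^ J = 2 ^ w * 2 ^ (J - w) := by rw [← pow_add]; congr 1; omega
  rw [h5] at h1
  have h6 : |F.d ω i₁ - ∑ j, bv F i₁ ω j * eval (bp F i₁ ω) (pderiv j H)| /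
      (2 ^ w * 2 ^ (J - w)) * 2 ^ (J - w) =
      |F.d ω i₁ - ∑ j, bv F i₁ ω j * eval (bp F i₁ ω) (pderiv j H)| / 2 ^ w := by
    field_simp
  rw [h6, div_le_iff₀ (by positivity)] at h1
  refine h1.trans (le_of_eq ?_)
  ring

open Classical in
/-- The times of the support of the law, for the value `s` of `S`. -/
noncomputable def tms {Ω : Type} [Fintype Ω] (p : Ω → ℝ) {S : Type} (T : Ω → ℕ) (X : Ω → S)
    (s : S) : Finset ℕ :=
  (univ.filter fun ω => 0 < p ω ∧ X ω = s).image T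

lemma mem_tms {Ω : Type} [Fintype Ω] {p : Ω → ℝ} {S : Type} {T : Ω → ℕ} {X : Ω → S} {s : S}
    {e : ℕ} : e ∈ tms p T X s ↔ ∃ ω, (0 < p ω ∧ X ω = s) ∧ T ω = e := by
  classical
  unfold tms
  rw [Finset.mem_image]
  simp only [Finset.mem_filter, Finset.mem_univ, true_and]

/-- Most fibres have many times. -/
theorem tms_card {Ω : Type} [Fintype Ω] {p : Ω → ℝ} (hp : IsLaw p) {S : Type} (T : Ω → ℕ)
    (X : Ω → S) (θ LM : ℝ) (hM : ∀ ω, 0 < p ω → Real.log (tms p T X (X ω)).card ≤ LM)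
    (hθ : LM - CH p T X ≤ θ) (hθ0 : 0 < θ) :
    Pe p (fun ω => Real.log (tms p T X (X ω)).card < LM - 4 * θ) ≤ 1 / 4 := by
  classical
  have h1 : CH p T X ≤ Ex p (fun ω => Real.log ((tms p T X (X ω)).card)) := by
    refine CH_le_card hp.nonneg hp.sum_one T X (tms p T X) ?_
    intro ω hω
    unfold tms
    exact Finset.mem_image_of_mem _ (by simp [hω])
  have h2 : Ex p (fun ω => LM - Real.log ((tms p T X (X ω)).card)) ≤ θ := by
    have : Ex p (fun ω => LM - Real.log ((tms p T X (X ω)).card)) =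
        LM - Ex p (fun ω => Real.log ((tms p T X (X ω)).card)) := by
      unfold Ex
      simp only [mul_sub, Finset.sum_sub_distrib]
      rw [← Finset.sum_mul, hp.sum_one, one_mul]
    rw [this]
    linarith
  rw [Pe_eq]
  have h3 : 4 * θ * (∑ ω, if Real.log (tms p T X (X ω)).card < LM - 4 * θ then p ω else 0) ≤
      Ex p (fun ω => LM - Real.log ((tms p T X (X ω)).card)) := by
    unfold Ex
    rw [Finset.mul_sum]
    refine Finset.sum_le_sum fun ω _ => ?_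
    have h0 := hp.nonneg ω
    rcases h0.lt_or_eq with h | h
    · have h4 := hM ω h
      split_ifs with h5
      · nlinarith
      · nlinarith
    · rw [← h]
      split_ifs <;> simp
  have h4 : 4 * θ * (∑ ω, if Real.log (tms p T X (X ω)).card < LM - 4 * θ then p ω else 0) ≤
      4 * θ * (1 / 4) := by linarith
  exact le_of_mul_le_mul_left h4 (by linarith)

end Pool.GLM
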