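import Pool.Agent.H78.GLM.Rgl4

/-!
# Row RGL: regularity of a leaf, with a large probability

Row REG gives polynomials on a set of points of probability `exp (-σ L)`. Here the set has
probability `3 / 4`; the polynomials are functions `g` of the point, and they are near polynomials
`h` which are functions of the line, the window of length `2 ^ (-u)` and the cell.
-/

set_option autoImplicit false

namespace Pool.GLM

open Finset Real MeasureTheory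
open Pool.Agent.H49.Ent Pool.Agent.H32.Dense Pool.STK Pool.KAF Pool.KAL Pool.KS3 Pool.KBX

/-- **Row RGL.** -/
def RGLStmt : Prop :=
  ∀ (n d : ℕ) (C₀ υ σ : ℝ), 1 ≤ n → 3 ≤ d → 1 ≤ C₀ → 0 < υ → 4 ≤ (d + 1) * υ → 0 < σ →
    σ ≤ 1 / 2 → ∃ (c : ℝ) (L₀ : ℕ), 0 < c ∧
    ∀ (Ω Λ Ξ : Type) [Fintype Ω] (p : Ω → ℝ) (lam : Ω → Λ) (x : Ω → Ξ) (T : Ξ → ℕ)
      (pos : Ξ → Option (Fin n) → ℕ) (A B : Λ → Option (Fin n) → ℝ) (μ : Λ → ℝ) (i₀ : Fin n)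
      (L κ γ u L' s : ℕ) (δ ε e₁ e₃ : ℝ),
      SL L C₀ δ ε e₁ e₃ p lam x T pos A B μ → TC i₀ lam x T pos A B → 1 ≤ κ → L₀ ≤ L →
      n.factorial * (3 * C₀) ^ n ≤ δ ^ n * 2 ^ γ → e₁ + e₃ + W0 L κ γ ε ≤ c * L →
      υ * L ≤ u → 2 * u ≤ L → (L' : ℝ) ≤ (1 - σ) * L → σ * L ≤ s →
      ∃ (g : Ξ → MvPolynomial (Fin n) ℝ)
        (h : (Λ × ℕ) × (Option (Fin n) → ℕ) → MvPolynomial (Fin n) ℝ) (E : Set Ω),
        3 / 4 ≤ Pr p E ∧ (∀ ξ, (g ξ).totalDegree ≤ d) ∧ (∀ v, (h v).totalDegree ≤ d) ∧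
        ∀ ω ∈ E, 0 < p ω ∧ |rp (2 ^ L) pos (x ω) none -
          MvPolynomial.eval (fun i => rp (2 ^ L) pos (x ω) (some i)) (g (x ω))| ≤ 1 / 2 ^ L' ∧
          ∀ y : Fin n → ℝ, (∀ i, |y i - KBX.cc L u pos (x ω) i| ≤ 2 * (1 / 2 ^ u)) →
            (∀ i, |MvPolynomial.eval y (MvPolynomial.pderiv i (g (x ω)))| ≤ 2 ^ s) ∧
            |MvPolynomial.eval y (g (x ω)) -
              MvPolynomial.eval y (h (SLP.tr L u lam x T pos ω))| ≤ 1 / 2 ^ L'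

lemma num_fin {SL a₁ L L₁ L' lg Z : ℝ} (hS : 0 ≤ SL) (ha : 0 ≤ a₁) (h1 : 1 / 2 ≤ lg)
    (h2 : lg ≤ 1) (h3 : Z ≤ 3 / 8 * SL - 2 * a₁ - 1) (h4 : L - 2 * a₁ - 1 ≤ L₁)
    (h5 : L' ≤ L - SL) : Z - L₁ * lg ≤ -(L' * lg) := by
  have h6 : (SL - 2 * a₁ - 1) * lg ≤ (L₁ - L') * lg :=
    mul_le_mul_of_nonneg_right (by linarith) (by linarith)
  have h7 : SL / 2 ≤ SL * lg := by nlinarith
  have h8 : (2 * a₁ + 1) * lg ≤ 2 * a₁ + 1 := mul_le_of_le_one_right (by linarith) h2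
  linarith

theorem rgl_thm (hREG : REGStmt) : RGLStmt := by
  classical
  intro n d C₀ υ σ hn hd hC₀ hυ hυ4 hσ hσ2
  obtain ⟨Cp, hCp, hpair⟩ := pair_small n d hn C₀ hC₀
  obtain ⟨K, hK, hthin⟩ := SLP.thin_mass n C₀ hC₀
  have hd3 : (3 : ℝ) ≤ d := by exact_mod_cast hd
  have hn1 : (1 : ℝ) ≤ n := by exact_mod_cast hn
  obtain ⟨D₁, hD₁⟩ : ∃ D₁ : ℝ, D₁ = 2 * d + 2 * Cp + 2 := ⟨_, rfl⟩
  obtain ⟨D₂, hD₂⟩ : ∃ D₂ : ℝ, D₂ = d + Cp ^ 2 + 1 := ⟨_, rfl⟩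
  have hD₁1 : 1 ≤ D₁ := by rw [hD₁]; linarith
  have hD₂1 : 1 ≤ D₂ := by rw [hD₂]; nlinarith
  obtain ⟨σ₁, hσ₁⟩ : ∃ σ₁ : ℝ, σ₁ = σ / (8 * D₁) := ⟨_, rfl⟩
  have hσ₁0 : 0 < σ₁ := by rw [hσ₁]; positivity
  have hD₁σ : D₁ * σ₁ = σ / 8 := by rw [hσ₁]; field_simp
  have hσ₁σ : 8 * σ₁ ≤ σ := by nlinarith
  obtain ⟨c₃, L₃, hc₃, hlist⟩ := list_thm hREG n d C₀ υ σ₁ hd hC₀ hυ hυ4 hσ₁0 (by linarith)
  obtain ⟨C₅, hC₅⟩ : ∃ C₅ : ℝ, C₅ = 2 * ((d + 1) * (4 * d) ^ d) * ((n + 2) * C₀) := ⟨_, rfl⟩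
  have h4d : (1 : ℝ) ≤ (4 * d) ^ d := one_le_pow₀ (by linarith)
  have hd4 : (1 : ℝ) ≤ (d + 1) * (4 * d) ^ d := by nlinarith
  have hnC : (1 : ℝ) ≤ (n + 2) * C₀ := by nlinarith
  have hC₀C₅ : C₀ ≤ C₅ := by
    rw [hC₅]
    have h1 : C₀ ≤ (n + 2) * C₀ := le_mul_of_one_le_left (by linarith) (by linarith)
    exact h1.trans (le_mul_of_one_le_left (by linarith) (by linarith))
  have hC₅1 : 1 ≤ C₅ := hC₀.trans hC₀C₅
  obtain ⟨k₁, hk₁⟩ : ∃ k₁ : ℝ, k₁ = Real.log 32 + Real.log K + Real.log 33 +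
    (Real.log 32 + Real.log 33) := ⟨_, rfl⟩
  have hl32 : 0 ≤ Real.log 32 := Real.log_nonneg (by norm_num)
  have hl33 : 0 ≤ Real.log 33 := Real.log_nonneg (by norm_num)
  have hlK : 0 ≤ Real.log K := Real.log_nonneg hK
  have hlC₅ : 0 ≤ Real.log C₅ := Real.log_nonneg hC₅1
  have hlC₀ : 0 ≤ Real.log C₀ := Real.log_nonneg hC₀
  have hld : 0 ≤ Real.log (d + 1) := Real.log_nonneg (by linarith)
  have hk₁0 : 0 ≤ k₁ := by rw [hk₁]; linarith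
  obtain ⟨K₁, hK₁⟩ : ∃ K₁ : ℝ, K₁ = Real.log C₅ + d * k₁ + Cp * (Real.log 32 + 2 * Real.log 33) +
    Real.log (d + 1) + k₁ + Real.log C₀ + 1 := ⟨_, rfl⟩
  have hK₁1 : 1 ≤ K₁ := by
    rw [hK₁]
    have h1 : 0 ≤ d * k₁ := by positivity
    have h2 : 0 ≤ Cp * (Real.log 32 + 2 * Real.log 33) := by positivity
    linarith
  obtain ⟨L₄, hL₄⟩ := exists_nat_ge (8 * K₁ / σ)
  obtain ⟨L₅, hL₅⟩ := exists_nat_ge (1 / σ₁)
  refine ⟨min c₃ (σ / (8 * D₂)), max L₃ (max L₄ L₅), lt_min hc₃ (by positivity), ?_⟩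
  intro Ω Λ Ξ _ p lam x T pos A B μ i₀ L κ γ u L' s δ ε e₁ e₃ hSL hTC hκ hL hγ hE hu hu2 hL' hs
  have hp : IsLaw p := hSL.leaf.isLaw
  have hL3 : L₃ ≤ L := (le_max_left _ _).trans hL
  have hL4 : L₄ ≤ L := (le_max_left _ _).trans ((le_max_right _ _).trans hL)
  have hL5 : L₅ ≤ L := (le_max_right _ _).trans ((le_max_right _ _).trans hL)
  have hL0 : (0 : ℝ) ≤ L := Nat.cast_nonneg _
  have he₁ := hSL.e₁_nonneg
  have he₃ := hSL.e₃_nonneg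
  have hε := hSL.ε_nonneg
  have hW : 1 ≤ W0 L κ γ ε := by
    unfold W0
    have h1 : (0 : ℝ) ≤ (L : ℝ) / κ := by positivity
    have h2 : (0 : ℝ) ≤ γ := Nat.cast_nonneg _
    have h3 : (0 : ℝ) ≤ κ := Nat.cast_nonneg _
    have h4 : 0 ≤ ε * L := by positivity
    linarith
  obtain ⟨a₁, ha₁⟩ : ∃ a₁ : ℝ, a₁ = σ₁ * L := ⟨_, rfl⟩
  obtain ⟨w, hw⟩ : ∃ w : ℝ, w = e₁ + W0 L κ γ ε := ⟨_, rfl⟩
  have ha₁1 : 1 ≤ a₁ := by
    have h1 : 1 / σ₁ ≤ L := hL₅.trans (by exact_mod_cast hL5)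
    rw [div_le_iff₀ hσ₁0] at h1
    rw [ha₁]
    linarith
  have hw0 : 0 ≤ w := by rw [hw]; linarith
  have hew : e₁ ≤ w := by rw [hw]; linarith
  -- the main inequality
  have hmain : K₁ + D₁ * a₁ + D₂ * w ≤ 3 / 8 * (σ * L) := by
    have h1 : 8 * K₁ ≤ σ * L := by
      have h2 : 8 * K₁ / σ ≤ L := hL₄.trans (by exact_mod_cast hL4)
      rw [div_le_iff₀ hσ] at h2
      linarith
    have h2 : D₁ * a₁ = σ * L / 8 := by
      rw [ha₁, ← mul_assoc, hD₁σ]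
      ring
    have h3 : D₂ * w ≤ σ * L / 8 := by
      have h4 : w ≤ σ / (8 * D₂) * L := by
        rw [hw]
        have : min c₃ (σ / (8 * D₂)) * L ≤ σ / (8 * D₂) * L :=
          mul_le_mul_of_nonneg_right (min_le_right _ _) hL0
        linarith
      calc D₂ * w ≤ D₂ * (σ / (8 * D₂) * L) := mul_le_mul_of_nonneg_left h4 (by linarith)
        _ = σ * L / 8 := by field_simp
    linarith
  have hEc₃ : e₁ + e₃ + W0 L κ γ ε ≤ c₃ * L :=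
    hE.trans (mul_le_mul_of_nonneg_right (min_le_left _ _) hL0)
  -- parts
  have q1 : 0 ≤ (d : ℝ) * k₁ := by positivity
  have q2 : 0 ≤ Cp * (Real.log 32 + 2 * Real.log 33) := by positivity
  have q3 : 0 ≤ (d : ℝ) * a₁ := by positivity
  have q4 : 0 ≤ Cp * a₁ := by positivity
  have q5 : 0 ≤ (d : ℝ) * w := by positivity
  have q6 : 0 ≤ Cp ^ 2 * w := by positivity
  have q7 : (d : ℝ) * e₁ ≤ d * w := mul_le_mul_of_nonneg_left hew (by positivity)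
  have hD₁a : D₁ * a₁ = 2 * (d * a₁) + 2 * (Cp * a₁) + 2 * a₁ := by rw [hD₁]; ring
  have hD₂w : D₂ * w = d * w + Cp ^ 2 * w + w := by rw [hD₂]; ring
  have hlog2 : (1 : ℝ) / 2 ≤ Real.log 2 := by
    have := Real.log_two_gt_d9
    linarith
  have hlog2' : Real.log 2 ≤ 1 := by
    have := Real.log_two_lt_d9
    linarith
  have huL : u ≤ L := by omega
  have hLu : (L : ℝ) / 2 ≤ ((L - u : ℕ) : ℝ) := by
    rw [Nat.cast_sub huL]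
    have : (2 : ℝ) * u ≤ L := by exact_mod_cast hu2
    linarith
  have hLu2 : (L : ℝ) / 4 ≤ ((L - u : ℕ) : ℝ) * Real.log 2 := by
    calc (L : ℝ) / 4 = L / 2 * (1 / 2) := by ring
      _ ≤ ((L - u : ℕ) : ℝ) * Real.log 2 :=
        mul_le_mul hLu hlog2 (by norm_num) (Nat.cast_nonneg _)
  have hσL : 3 / 8 * (σ * L) ≤ L / 4 := by
    have h1 : σ * L ≤ 1 / 2 * L := mul_le_mul_of_nonneg_right hσ2 hL0
    calc 3 / 8 * (σ * L) ≤ 3 / 8 * (1 / 2 * L) := mul_le_mul_of_nonneg_left h1 (by norm_num)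
      _ ≤ L / 4 := by
        have : 3 / 8 * (1 / 2 * (L : ℝ)) = 3 / 16 * L := by ring
        rw [this]
        have h2 : 3 / 16 * (L : ℝ) ≤ 1 / 4 * L := mul_le_mul_of_nonneg_right (by norm_num) hL0
        calc 3 / 16 * (L : ℝ) ≤ 1 / 4 * L := h2
          _ = L / 4 := by ring
  -- the parameters
  obtain ⟨Mr, hMr⟩ : ∃ Mr : ℝ, Mr = 33 * Real.exp a₁ := ⟨_, rfl⟩
  have hMr0 : 0 < Mr := by rw [hMr]; positivity
  have hexp1 : 1 ≤ Real.exp a₁ := Real.one_le_exp (by linarith)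
  have hMr1 : 1 ≤ Mr := by rw [hMr]; linarith
  have hlMr : Real.log Mr = Real.log 33 + a₁ := by
    rw [hMr, Real.log_mul (by norm_num) (Real.exp_pos _).ne', Real.log_exp]
  obtain ⟨β, hβ⟩ : ∃ β : ℝ, β = 1 / (32 * Mr) := ⟨_, rfl⟩
  obtain ⟨θ, hθ⟩ : ∃ θ : ℝ, θ = 1 / (32 * K * Mr) := ⟨_, rfl⟩
  have hlβ : Real.log (1 / β) = Real.log 32 + (Real.log 33 + a₁) := by
    rw [hβ, one_div_one_div, Real.log_mul (by norm_num) hMr0.ne', hlMr]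
  obtain ⟨r₁, hr₁⟩ : ∃ r₁ : ℝ, r₁ = k₁ + 2 * a₁ + e₁ := ⟨_, rfl⟩
  have hr₁0 : 0 ≤ r₁ := by rw [hr₁]; linarith
  obtain ⟨ρ, hρ⟩ : ∃ ρ : ℝ, ρ = θ * Real.exp (-(e₁ + Real.log (1 / β))) := ⟨_, rfl⟩
  have hρr : ρ = Real.exp (-r₁) := by
    have hK0 : 0 < K := by linarith
    have h1 : θ = Real.exp (-(Real.log 32 + Real.log K + (Real.log 33 + a₁))) := by
      rw [hθ, ← hlMr, ← Real.log_mul (by norm_num) hK0.ne', ← Real.log_mul (by positivity) hMr0.ne',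
        Real.exp_neg, Real.exp_log (by positivity), one_div]
    rw [hρ, h1, hlβ, ← Real.exp_add, hr₁, hk₁]
    congr 1
    ring
  obtain ⟨L₁, hL₁⟩ : ∃ L₁ : ℕ, L₁ = ⌊(1 - 2 * σ₁) * L⌋₊ := ⟨_, rfl⟩
  obtain ⟨s₁, hs₁⟩ : ∃ s₁ : ℕ, s₁ = ⌈σ₁ * L⌉₊ := ⟨_, rfl⟩
  have hL₁a : (L₁ : ℝ) ≤ (1 - 2 * σ₁) * L := by
    rw [hL₁]
    refine Nat.floor_le (mul_nonneg (by linarith) hL0)
  have hL₁b : (1 - 2 * σ₁) * L - 1 ≤ L₁ := by
    rw [hL₁]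
    have := Nat.lt_floor_add_one ((1 - 2 * σ₁) * (L : ℝ))
    linarith
  have hs₁a : σ₁ * L ≤ s₁ := by rw [hs₁]; exact Nat.le_ceil _
  have hs₁b : (s₁ : ℝ) ≤ a₁ + 1 := by
    rw [hs₁, ha₁]
    exact (Nat.ceil_lt_add_one (by positivity)).le
  have hLs : s₁ + L₁ ≤ L := by
    have : ((s₁ + L₁ : ℕ) : ℝ) ≤ L := by
      push_cast
      have : (1 - 2 * σ₁) * (L : ℝ) = L - 2 * a₁ := by rw [ha₁]; ring
      linarith
    exact_mod_cast this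
  have hs₁s : s₁ ≤ s := by
    have : (s₁ : ℝ) ≤ s := by
      have h1 : 8 * a₁ ≤ σ * L := by
        rw [ha₁, ← mul_assoc]
        exact mul_le_mul_of_nonneg_right hσ₁σ hL0
      linarith
    exact_mod_cast this
  obtain ⟨M, G, hM, hGd, hunc⟩ := hlist Ω Λ Ξ p lam x T pos A B μ i₀ L κ γ u L₁ s₁ δ ε e₁ e₃ hSL
    hTC hκ hL3 hγ hEc₃ hu hu2 (by
      have : (1 - 2 * σ₁) * (L : ℝ) ≤ (1 - σ₁) * L :=
        mul_le_mul_of_nonneg_right (by linarith) hL0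
      linarith) hs₁a
  have hMMr : (M : ℝ) ≤ Mr := by
    rw [← ha₁] at hM
    rw [hMr]
    linarith
  -- the errors
  obtain ⟨η₁, hη₁⟩ : ∃ η₁ : ℝ, η₁ = C₀ / 2 ^ L₁ := ⟨_, rfl⟩
  obtain ⟨η₂, hη₂⟩ : ∃ η₂ : ℝ, η₂ = C₅ * Real.exp (d * r₁) / 2 ^ L₁ := ⟨_, rfl⟩
  have hη₂0 : 0 < η₂ := by rw [hη₂]; positivity
  have hpow1 : (0 : ℝ) < 2 ^ L₁ := by positivity
  have hexpd : 1 ≤ Real.exp (d * r₁) := Real.one_le_exp (by positivity)
  have hgr : grE n L C₀ (2 ^ s₁) ≤ (n + 1) * C₀ / 2 ^ L₁ := by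
    unfold grE
    have h1 : C₀ / 2 ^ L ≤ C₀ / 2 ^ L₁ := by
      refine div_le_div_of_nonneg_left (by linarith) hpow1 ?_
      exact pow_le_pow_right₀ (by norm_num) (by omega)
    have h2 : (2 : ℝ) ^ s₁ * (C₀ / 2 ^ L) ≤ C₀ / 2 ^ L₁ := by
      have h3 : (2 : ℝ) ^ s₁ * 2 ^ L₁ ≤ 2 ^ L := by
        rw [← pow_add]
        exact pow_le_pow_right₀ (by norm_num) hLs
      rw [← mul_div_assoc, div_le_div_iff₀ (by positivity) hpow1]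
      calc (2 : ℝ) ^ s₁ * C₀ * 2 ^ L₁ = C₀ * (2 ^ s₁ * 2 ^ L₁) := by ring
        _ ≤ C₀ * 2 ^ L := mul_le_mul_of_nonneg_left h3 (by linarith)
    have h3 : (n : ℝ) * (2 ^ s₁ * (C₀ / 2 ^ L)) ≤ n * (C₀ / 2 ^ L₁) :=
      mul_le_mul_of_nonneg_left h2 (by positivity)
    calc C₀ / 2 ^ L + n * (2 ^ s₁ * (C₀ / 2 ^ L)) ≤ C₀ / 2 ^ L₁ + n * (C₀ / 2 ^ L₁) :=
          add_le_add h1 h3
      _ = (n + 1) * C₀ / 2 ^ L₁ := by ring
  have hgr0 : 0 ≤ grE n L C₀ (2 ^ s₁) := by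
    unfold grE
    positivity
  have hη12 : η₁ ≤ η₂ := by
    rw [hη₁, hη₂]
    refine div_le_div_of_nonneg_right ?_ hpow1.le
    exact hC₀C₅.trans (le_mul_of_one_le_right (zero_le_one.trans hC₅1) hexpd)
  have hη2 : ((d : ℝ) + 1) * (4 * d / ρ) ^ d * (η₁ + grE n L C₀ (2 ^ s₁)) +
      grE n L C₀ (2 ^ s₁) ≤ η₂ := by
    have h1 : (4 * (d : ℝ) / ρ) ^ d = (4 * d) ^ d * Real.exp (d * r₁) := by
      rw [hρr, Real.exp_neg, div_inv_eq_mul, mul_pow, ← Real.exp_nat_mul]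
    have h2 : η₁ + grE n L C₀ (2 ^ s₁) ≤ (n + 2) * C₀ / 2 ^ L₁ := by
      rw [hη₁]
      calc C₀ / 2 ^ L₁ + grE n L C₀ (2 ^ s₁) ≤ C₀ / 2 ^ L₁ + (n + 1) * C₀ / 2 ^ L₁ :=
            add_le_add le_rfl hgr
        _ = _ := by ring
    have h3 : grE n L C₀ (2 ^ s₁) ≤ (n + 2) * C₀ / 2 ^ L₁ := by
      have : 0 ≤ η₁ := by rw [hη₁]; positivity
      linarith
    rw [h1]
    have h4 : ((d : ℝ) + 1) * ((4 * d) ^ d * Real.exp (d * r₁)) *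
        (η₁ + grE n L C₀ (2 ^ s₁)) ≤ ((d : ℝ) + 1) * ((4 * d) ^ d * Real.exp (d * r₁)) *
        ((n + 2) * C₀ / 2 ^ L₁) := mul_le_mul_of_nonneg_left h2 (by positivity)
    have h5 : (n + 2) * C₀ / 2 ^ L₁ ≤ ((d : ℝ) + 1) * ((4 * d) ^ d * Real.exp (d * r₁)) *
        ((n + 2) * C₀ / 2 ^ L₁) := by
      refine le_mul_of_one_le_left (by positivity) ?_
      calc (1 : ℝ) ≤ (d + 1) * (4 * d) ^ d := hd4
        _ ≤ (d + 1) * (4 * d) ^ d * Real.exp (d * r₁) :=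
          le_mul_of_one_le_right (by positivity) hexpd
        _ = _ := by ring
    have h6 : η₂ = ((d : ℝ) + 1) * ((4 * d) ^ d * Real.exp (d * r₁)) * ((n + 2) * C₀ / 2 ^ L₁) +
        ((d : ℝ) + 1) * ((4 * d) ^ d * Real.exp (d * r₁)) * ((n + 2) * C₀ / 2 ^ L₁) := by
      rw [hη₂, hC₅]
      ring
    rw [h6]
    linarith
  obtain ⟨X, hX⟩ : ∃ X : ℝ, X = Cp * (Cp * w + (Real.log 32 + 2 * (Real.log 33 + a₁))) := ⟨_, rfl⟩
  have hX0 : 0 ≤ X := by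
    rw [hX]
    have : 0 ≤ Cp * w := by positivity
    positivity
  have hXe : X = Cp ^ 2 * w + Cp * (Real.log 32 + 2 * Real.log 33) + 2 * (Cp * a₁) := by
    rw [hX]; ring
  have hlogη : Real.log (η₂ * Real.exp X / η₂) = X := by
    rw [mul_div_cancel_left₀ _ hη₂0.ne', Real.log_exp]
  have hXL : X ≤ ((L - u : ℕ) : ℝ) * Real.log 2 := by
    rw [hXe]
    rw [hK₁, hD₁a, hD₂w] at hmain
    linarith
  have hγ' : n.factorial * C₀ ^ n ≤ δ ^ n * 2 ^ γ := by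
    refine le_trans ?_ hγ
    have : C₀ ^ n ≤ (3 * C₀) ^ n := pow_le_pow_left₀ (by linarith) (by linarith) n
    exact mul_le_mul_of_nonneg_left this (by positivity)
  have hpair' : ∀ k k', Pr p {ω | x ω ∈ Vbad L u pos η₂ (η₂ * Real.exp X) (G k) (G k')} ≤
      1 / (32 * Mr ^ 2) := by
    intro k k'
    have h1 := hpair Ω Λ Ξ p lam x T pos A B μ L κ γ u δ ε e₁ e₃ η₂ (η₂ * Real.exp X) (G k) (G k')
      hSL hκ hγ' huL (hGd k) (hGd k') hη₂0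
      (le_mul_of_one_le_right hη₂0.le (Real.one_le_exp hX0)) (by rw [hlogη]; exact hXL)
    refine h1.trans (le_of_eq ?_)
    rw [hlogη, ← hw, hX]
    have hCp0 : Cp ≠ 0 := by linarith
    have h2 : Cp * w - Cp * (Cp * w + (Real.log 32 + 2 * (Real.log 33 + a₁))) / Cp =
        -(Real.log 32 + 2 * (Real.log 33 + a₁)) := by
      rw [mul_div_cancel_left₀ _ hCp0]
      ring
    rw [h2, ← hlMr]
    have h3 : Real.log 32 + 2 * Real.log Mr = Real.log (32 * Mr ^ 2) := by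
      rw [Real.log_mul (by norm_num) (by positivity), Real.log_pow]
      push_cast
      rfl
    rw [h3, Real.exp_neg, Real.exp_log (by positivity), one_div]
  have hdρ : (d : ℝ) + 1 ≤ ρ * 2 ^ (L - u) := by
    rw [hρr]
    have h1 : (d : ℝ) + 1 = Real.exp (Real.log (d + 1)) := by
      rw [Real.exp_log (by linarith)]
    have h2 : (2 : ℝ) ^ (L - u) = Real.exp (((L - u : ℕ) : ℝ) * Real.log 2) := by
      rw [← Real.log_pow, Real.exp_log (by positivity)]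
    rw [h1, h2, ← Real.exp_add]
    refine Real.exp_le_exp.2 ?_
    rw [hr₁]
    rw [hK₁, hD₁a, hD₂w] at hmain
    linarith
  have hCu : C₀ * 2 ^ u ≤ 2 ^ L := by
    have h2 : (2 : ℝ) ^ L = 2 ^ (L - u) * 2 ^ u := by rw [← pow_add]; congr 1; omega
    rw [h2]
    refine mul_le_mul_of_nonneg_right ?_ (by positivity)
    have h3 : (2 : ℝ) ^ (L - u) = Real.exp (((L - u : ℕ) : ℝ) * Real.log 2) := by
      rw [← Real.log_pow, Real.exp_log (by positivity)]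
    rw [h3, ← Real.exp_log (show (0 : ℝ) < C₀ by linarith)]
    refine Real.exp_le_exp.2 ?_
    rw [hK₁, hD₁a, hD₂w] at hmain
    linarith
  obtain ⟨g, h, E, hE1, hg, hh, hE2⟩ := rgl_core (d := d) (by omega) hC₀ (s₁ := s₁) (M := M)
    (Mr := Mr) (K := K) (η₁ := η₁) (η₂ := η₂) (η₃ := η₂ * Real.exp X) (β := β) (θ := θ) (ρ := ρ)
    hSL huL hCu hMMr hMr1 hK G hGd (by rw [hη₁]; exact hunc) hpair'
    (fun q hq => hthin Ω Λ Ξ q lam x T pos A B μ L u θ hq huL (by rw [hθ]; positivity)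
      hSL.μ_nonneg hSL.μ_sum) hβ hθ hρ hdρ hη12 hη2
  have hfin : η₂ * Real.exp X ≤ 1 / 2 ^ L' := by
    have h1 : η₂ * Real.exp X = Real.exp (Real.log C₅ + d * r₁ + X - L₁ * Real.log 2) := by
      rw [hη₂, Real.exp_sub, Real.exp_add, Real.exp_add, Real.exp_log (by linarith),
        ← Real.log_pow, Real.exp_log hpow1]
      ring
    have h2 : (1 : ℝ) / 2 ^ L' = Real.exp (-(L' * Real.log 2)) := by
      rw [Real.exp_neg, ← Real.log_pow, Real.exp_log (by positivity), one_div]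
    rw [h1, h2]
    refine Real.exp_le_exp.2 ?_
    have h3 : Real.log C₅ + d * r₁ + X ≤ 3 / 8 * (σ * L) - 2 * a₁ - 1 := by
      rw [hr₁, hXe]
      rw [hK₁, hD₁a, hD₂w] at hmain
      have e1 : (d : ℝ) * (k₁ + 2 * a₁ + e₁) = d * k₁ + 2 * (d * a₁) + d * e₁ := by ring
      rw [e1]
      linarith
    exact num_fin (a₁ := a₁) (mul_nonneg hσ.le hL0) (le_trans zero_le_one ha₁1) hlog2 hlog2' h3
      (by
        have h5 : (1 - 2 * σ₁) * (L : ℝ) = L - 2 * a₁ := by rw [ha₁]; ring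
        rw [h5] at hL₁b
        exact hL₁b) (by
        have h5 : (1 - σ) * (L : ℝ) = L - σ * L := by ring
        rw [h5] at hL'
        exact hL')
  refine ⟨g, h, E, hE1, hg, hh, fun ω hω => ?_⟩
  obtain ⟨h1, h2, h3⟩ := hE2 ω hω
  refine ⟨h1, h2.trans ((le_mul_of_one_le_right hη₂0.le (Real.one_le_exp hX0)).trans hfin),
    fun y hy => ?_⟩
  obtain ⟨h4, h5⟩ := h3 y hy
  exact ⟨fun i => (h4 i).trans (pow_le_pow_right₀ (by norm_num) hs₁s), h5.trans hfin⟩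

end Pool.GLM
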