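import Pool.Agent.H60.KBX.SLI
import Pool.Agent.H89.KBX.SLP

/-!
# Regularity of a leaf with a large probability: lists of polynomials

Row REG covers a part `exp (-σ L)` of a leaf. Iterating it on the part which is not yet covered
gives at most `exp (2 σ L)` families of polynomials which cover almost everything.
-/

set_option autoImplicit false

namespace Pool.GLM

open Finset Real MeasureTheory
open Pool.Agent.H49.Ent Pool.Agent.H32.Dense Pool.STK Pool.KAF Pool.KAL Pool.KS3 Pool.KBX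

section Greedy

variable {Ω Ξ : Type} [Fintype Ω] {p : Ω → ℝ}

/-- Greedy covering. -/
theorem greedy (hp : IsLaw p) (x : Ω → Ξ) {κ : Type} (S : κ → Set Ξ) {η b : ℝ} (hη : 0 < η)
    (h : ∀ U : Set Ξ, b < Pr p {ω | x ω ∈ U} → ∃ k, η ≤ Pr p {ω | x ω ∈ U ∩ S k}) :
    ∃ (M : ℕ) (G : Fin M → κ), (M : ℝ) ≤ 1 / η + 1 ∧ Pr p {ω | ∀ k, x ω ∉ S (G k)} ≤ b := by
  classical
  have key : ∀ M : ℕ, (∃ (M' : ℕ) (G : Fin M' → κ), M' ≤ M ∧
      Pr p {ω | ∀ k, x ω ∉ S (G k)} ≤ b) ∨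
      ∃ G : Fin M → κ, (M : ℝ) * η ≤ Pr p {ω | ∃ k, x ω ∈ S (G k)} := by
    intro M
    induction M with
    | zero =>
      right
      refine ⟨fun k => k.elim0, ?_⟩
      rw [Nat.cast_zero, zero_mul]
      exact Pr_nonneg hp _
    | succ M ih =>
      rcases ih with ⟨M', G, h1, h2⟩ | ⟨G, h1⟩
      · exact Or.inl ⟨M', G, by omega, h2⟩
      by_cases hb : Pr p {ω | ∀ k, x ω ∉ S (G k)} ≤ b
      · exact Or.inl ⟨M, G, by omega, hb⟩
      right
      push Not at hb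
      obtain ⟨k₀, hk₀⟩ := h {ξ | ∀ k, ξ ∉ S (G k)} hb
      refine ⟨Fin.snoc G k₀, ?_⟩
      have h3 : Pr p {ω | ∃ k, x ω ∈ S (G k)} +
          Pr p {ω | x ω ∈ {ξ | ∀ k, ξ ∉ S (G k)} ∩ S k₀} ≤
          Pr p {ω | ∃ k, x ω ∈ S ((Fin.snoc G k₀ : Fin (M + 1) → κ) k)} := by
        rw [Pr_eq, Pr_eq, Pr_eq, ← Finset.sum_add_distrib]
        refine Finset.sum_le_sum fun ω _ => ?_
        have h0 := hp.nonneg ω
        by_cases c1 : ∃ k, x ω ∈ S (G k)
        · obtain ⟨k, hk⟩ := c1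
          have c2 : ω ∉ {ω | x ω ∈ {ξ | ∀ k, ξ ∉ S (G k)} ∩ S k₀} := fun hc => hc.1 k hk
          have c3 : ω ∈ {ω | ∃ k, x ω ∈ S ((Fin.snoc G k₀ : Fin (M + 1) → κ) k)} :=
            ⟨k.castSucc, by rw [Fin.snoc_castSucc]; exact hk⟩
          rw [if_pos (show ω ∈ {ω | ∃ k, x ω ∈ S (G k)} from ⟨k, hk⟩), if_neg c2, if_pos c3]
          linarith
        · rw [if_neg (show ω ∉ {ω | ∃ k, x ω ∈ S (G k)} from c1)]
          by_cases c2 : ω ∈ {ω | x ω ∈ {ξ | ∀ k, ξ ∉ S (G k)} ∩ S k₀}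
          · have c3 : ω ∈ {ω | ∃ k, x ω ∈ S ((Fin.snoc G k₀ : Fin (M + 1) → κ) k)} :=
              ⟨Fin.last M, by rw [Fin.snoc_last]; exact c2.2⟩
            rw [if_pos c2, if_pos c3]
            linarith
          · rw [if_neg c2]
            split_ifs <;> linarith
      push_cast
      linarith
  obtain ⟨M, hM⟩ : ∃ M : ℕ, M = ⌊1 / η⌋₊ + 1 := ⟨_, rfl⟩
  have hM1 : (M : ℝ) ≤ 1 / η + 1 := by
    rw [hM]
    push_cast
    have := Nat.floor_le (show (0 : ℝ) ≤ 1 / η by positivity)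
    linarith
  rcases key M with ⟨M', G, h1, h2⟩ | ⟨G, h1⟩
  · exact ⟨M', G, le_trans (by exact_mod_cast h1) hM1, h2⟩
  · exfalso
    have h2 := Pr_le_one hp {ω | ∃ k, x ω ∈ S (G k)}
    have h3 : 1 / η < M := by
      rw [hM]
      push_cast
      exact Nat.lt_floor_add_one _
    rw [div_lt_iff₀ hη] at h3
    linarith

end Greedy

/-- The point is near the graph of the polynomial of its cell. -/
def NearG {n : ℕ} {Ξ : Type} (L u : ℕ) (pos : Ξ → Option (Fin n) → ℕ) (η : ℝ)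
    (G : (Option (Fin n) → ℕ) → MvPolynomial (Fin n) ℝ) (ξ : Ξ) : Prop :=
  |rp (2 ^ L) pos ξ none -
    MvPolynomial.eval (fun i => rp (2 ^ L) pos ξ (some i)) (Gc L u pos G ξ)| ≤ η

/-- The gradient of the polynomial of the cell is at most `S`. -/
def GrB {n : ℕ} {Ξ : Type} (L u : ℕ) (pos : Ξ → Option (Fin n) → ℕ) (S : ℝ)
    (G : (Option (Fin n) → ℕ) → MvPolynomial (Fin n) ℝ) (ξ : Ξ) : Prop :=
  D1 (Gc L u pos G ξ) (cc L u pos ξ) (1 / 2 ^ u) S

/-- **The list of polynomials.** -/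
theorem list_thm (hREG : REGStmt) (n d : ℕ) (C₀ υ σ : ℝ) (hd : 3 ≤ d) (hC₀ : 1 ≤ C₀)
    (hυ : 0 < υ) (hυ4 : 4 ≤ (d + 1) * υ) (hσ : 0 < σ) (hσ2 : σ ≤ 1 / 2) :
    ∃ (c : ℝ) (L₀ : ℕ), 0 < c ∧
    ∀ (Ω Λ Ξ : Type) [Fintype Ω] (p : Ω → ℝ) (lam : Ω → Λ) (x : Ω → Ξ) (T : Ξ → ℕ)
      (pos : Ξ → Option (Fin n) → ℕ) (A B : Λ → Option (Fin n) → ℝ) (μ : Λ → ℝ) (i₀ : Fin n)
      (L κ γ u L₁ s₁ : ℕ) (δ ε e₁ e₃ : ℝ),
      SL L C₀ δ ε e₁ e₃ p lam x T pos A B μ → TC i₀ lam x T pos A B → 1 ≤ κ → L₀ ≤ L →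
      n.factorial * (3 * C₀) ^ n ≤ δ ^ n * 2 ^ γ → e₁ + e₃ + W0 L κ γ ε ≤ c * L →
      υ * L ≤ u → 2 * u ≤ L → (L₁ : ℝ) ≤ (1 - σ) * L → σ * L ≤ s₁ →
      ∃ (M : ℕ) (G : Fin M → (Option (Fin n) → ℕ) → MvPolynomial (Fin n) ℝ),
        (M : ℝ) ≤ 32 * Real.exp (σ * L) + 1 ∧ (∀ k c, (G k c).totalDegree ≤ d) ∧
        Pr p {ω | ∀ k, ¬ (NearG L u pos (C₀ / 2 ^ L₁) (G k) (x ω) ∧
          GrB L u pos (2 ^ s₁) (G k) (x ω))} ≤ 1 / 32 := by
  classical
  obtain ⟨c, L₀, hc, hreg⟩ := hREG n d C₀ υ σ hd hC₀ hυ hυ4 hσ hσ2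
  have hlog : 0 ≤ Real.log 32 := Real.log_nonneg (by norm_num)
  obtain ⟨L₂, hL₂⟩ := exists_nat_ge (Real.log 32 / (c / 2))
  refine ⟨c / 2, max L₀ L₂, by positivity, ?_⟩
  intro Ω Λ Ξ _ p lam x T pos A B μ i₀ L κ γ u L₁ s₁ δ ε e₁ e₃ hSL hTC hκ hL hγ hE hu hu2 hL₁ hs₁
  have hp : IsLaw p := hSL.leaf.isLaw
  have hL0 : L₀ ≤ L := (le_max_left _ _).trans hL
  have hL2 : L₂ ≤ L := (le_max_right _ _).trans hL
  have hlogL : Real.log 32 ≤ c / 2 * L := by
    have h1 : Real.log 32 / (c / 2) ≤ L := hL₂.trans (by exact_mod_cast hL2)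
    rw [div_le_iff₀ (by positivity)] at h1
    linarith
  obtain ⟨S, hS⟩ : ∃ S : {G : (Option (Fin n) → ℕ) → MvPolynomial (Fin n) ℝ //
      ∀ c, (G c).totalDegree ≤ d} → Set Ξ, S = fun G => {ξ | NearG L u pos (C₀ / 2 ^ L₁) G.1 ξ ∧
        GrB L u pos (2 ^ s₁) G.1 ξ} := ⟨_, rfl⟩
  obtain ⟨M, G, hM, hG⟩ := greedy hp x S (η := Real.exp (-(σ * L)) / 32) (b := 1 / 32)
    (by positivity) (fun U hU => by
      have hU0 : 0 < Pr p {ω | x ω ∈ U} := lt_trans (by norm_num) hU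
      have hSL' : SL L C₀ δ ε (e₁ + Real.log 32) e₃ (rs p {ω | x ω ∈ U}) lam x T pos A B μ := by
        refine Pool.Agent.H60.KBX.sli_thm n Ω Λ Ξ p lam x T pos A B μ L C₀ δ ε e₁ e₃
          (Real.log 32) U hSL hlog ?_
        rw [Real.exp_neg, Real.exp_log (by norm_num)]
        have : (32 : ℝ)⁻¹ = 1 / 32 := by norm_num
        rw [this]
        exact hU.le
      have hTC' : TC i₀ lam x T pos A B := hTC
      obtain ⟨S', L', s, G, h1, h2, h3, h4, h5, h6⟩ := hreg Ω Λ Ξ (rs p {ω | x ω ∈ U}) lam x T pos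
        A B μ i₀ L κ γ u δ ε (e₁ + Real.log 32) e₃ hSL' hTC' hκ hL0 hγ (by linarith) hu hu2
      refine ⟨⟨G, h5.deg⟩, ?_⟩
      have hr := rs_isLaw hp hU0
      have hE0 : 0 < Pr (rs p {ω | x ω ∈ U}) {ω | x ω ∈ S'} := (Real.exp_pos _).trans_le h1
      -- the probability of the intersection
      have h7 : Pr p {ω | x ω ∈ U} * Pr (rs p {ω | x ω ∈ U}) {ω | x ω ∈ S'} ≤
          Pr p {ω | x ω ∈ U ∩ S ⟨G, h5.deg⟩} := by
        rw [Pr_eq (rs p {ω | x ω ∈ U}), Finset.mul_sum, Pr_eq p {ω | x ω ∈ U ∩ S ⟨G, h5.deg⟩}]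
        refine Finset.sum_le_sum fun ω _ => ?_
        have h0 := hp.nonneg ω
        by_cases c1 : ω ∈ {ω | x ω ∈ S'}
        · rw [if_pos c1, rs_eq]
          by_cases c2 : ω ∈ {ω | x ω ∈ U}
          · rw [if_pos c2, mul_div_cancel₀ _ hU0.ne']
            rcases h0.lt_or_eq with h8 | h8
            · have c3 : 0 < rs (rs p {ω | x ω ∈ U}) {ω | x ω ∈ S'} ω := by
                rw [rs_pos hr]
                exact ⟨(rs_pos hp).2 ⟨h8, c2⟩, c1⟩
              have c4 : ω ∈ {ω | x ω ∈ U ∩ S ⟨G, h5.deg⟩} := by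
                refine ⟨c2, ?_⟩
                rw [hS]
                constructor
                · refine (h5.near ω c3).trans ?_
                  refine div_le_div_of_nonneg_left (by linarith) (by positivity) ?_
                  refine pow_le_pow_right₀ (by norm_num) ?_
                  have : (L₁ : ℝ) ≤ L' := hL₁.trans h3
                  exact_mod_cast this
                · intro y hy i
                  refine (h6 ω c3 y hy i).trans ?_
                  refine pow_le_pow_right₀ (by norm_num) ?_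
                  have : (s : ℝ) ≤ s₁ := h4.trans hs₁
                  exact_mod_cast this
              rw [if_pos c4]
            · rw [← h8]
              split_ifs <;> exact le_rfl
          · rw [if_neg c2, mul_zero]
            split_ifs
            exacts [h0, le_rfl]
        · rw [if_neg c1, mul_zero]
          split_ifs
          exacts [h0, le_rfl]
      refine le_trans ?_ h7
      have h8 : Real.exp (-(σ * L)) / 32 = 1 / 32 * Real.exp (-(σ * L)) := by ring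
      rw [h8]
      exact mul_le_mul hU.le h1 (Real.exp_pos _).le hU0.le)
  refine ⟨M, fun k => (G k).1, ?_, fun k => (G k).2, ?_⟩
  · refine hM.trans (le_of_eq ?_)
    rw [Real.exp_neg]
    field_simp
  · refine le_trans (le_of_eq ?_) hG
    congr 1
    rw [hS]
    rfl

end Pool.GLM
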