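import Pool.Agent.H78.GLM.Rgl1
import Pool.Agent.H78.GLM.Aff
import Pool.Agent.H37.STPA.Reg

/-!
# Two polynomials which are near on a large set of points are near on the cell
-/

set_option autoImplicit false

namespace Pool.GLM

open Finset Real MeasureTheory
open Pool.Agent.H49.Ent Pool.Agent.H32.Dense Pool.STK Pool.KAF Pool.KAL Pool.KS3 Pool.KBX

/-- From the unit cube to a larger cube. -/
theorem ext_cube (n d : ℕ) : ∃ C : ℝ, 1 ≤ C ∧ ∀ (P : MvPolynomial (Fin n) ℝ) (M : ℝ),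
    P.totalDegree ≤ d → (∀ s : Fin n → ℝ, (∀ i, s i ∈ Set.Icc (0 : ℝ) 1) →
      |MvPolynomial.eval s P| ≤ M) →
    ∀ s : Fin n → ℝ, (∀ i, |s i| ≤ 2) → |MvPolynomial.eval s P| ≤ C * M := by
  obtain ⟨C, hC0, hC⟩ := Pool.Agent.H36.KBX.coef_bound n d
  refine ⟨(Pool.Agent.H36.KBX.bx n d).card * (C * 5 ^ (n * d)) + 1, ?_, ?_⟩
  · have : (0 : ℝ) ≤ (Pool.Agent.H36.KBX.bx n d).card * (C * 5 ^ (n * d)) := by positivity
    linarith
  intro P M hP hM s hs
  have hM0 : 0 ≤ M := (abs_nonneg _).trans (hM (fun _ => 0) fun i => by simp)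
  have h1 := hC (aff (fun _ => 1 / 2) (1 / 2) P) M (totalDegree_aff _ _ hP) (fun y hy => by
    rw [eval_aff]
    refine hM _ fun i => ?_
    have := abs_le.1 (hy i)
    constructor <;> linarith [this.1, this.2])
  have h2 := Pool.Agent.H36.KBX.eval_bound (aff (fun _ => 1 / 2) (1 / 2) P)
    (totalDegree_aff _ _ hP) (C * M) 5 (by norm_num) h1 (fun i => 2 * s i - 1) (fun i => by
      have := abs_le.1 (hs i)
      rw [abs_le]
      constructor <;> linarith [this.1, this.2])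
  rw [eval_aff] at h2
  have h3 : (fun i => 1 / 2 + 1 / 2 * (2 * s i - 1)) = s := by
    funext i
    ring
  rw [h3] at h2
  refine h2.trans ?_
  have h4 : ((Pool.Agent.H36.KBX.bx n d).card : ℝ) * (C * M * 5 ^ (n * d)) =
      (Pool.Agent.H36.KBX.bx n d).card * (C * 5 ^ (n * d)) * M := by ring
  rw [h4]
  nlinarith

/-- The base coordinates inside the cell. -/
def off {n : ℕ} {Ξ : Type} {R : ℕ} (hR : 0 < R) (pos : Ξ → Option (Fin n) → ℕ) (ξ : Ξ) :
    Fin n → Fin R := fun i => ⟨pos ξ (some i) % R, Nat.mod_lt _ hR⟩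

/-- Two families of polynomials which are near the points of a set: the set has a small
probability, or the polynomials are near. -/
theorem pair_small (n d : ℕ) (hn : 1 ≤ n) (C₀ : ℝ) (hC₀ : 1 ≤ C₀) : ∃ C : ℝ, 1 ≤ C ∧
    ∀ (Ω Λ Ξ : Type) [Fintype Ω] (p : Ω → ℝ) (lam : Ω → Λ) (x : Ω → Ξ) (T : Ξ → ℕ)
      (pos : Ξ → Option (Fin n) → ℕ) (A B : Λ → Option (Fin n) → ℝ) (μ : Λ → ℝ)
      (L κ γ u : ℕ) (δ ε e₁ e₃ η₂ η₃ : ℝ)
      (G G' : (Option (Fin n) → ℕ) → MvPolynomial (Fin n) ℝ),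
      SL L C₀ δ ε e₁ e₃ p lam x T pos A B μ → 1 ≤ κ →
      n.factorial * C₀ ^ n ≤ δ ^ n * 2 ^ γ → u ≤ L → (∀ c, (G c).totalDegree ≤ d) →
      (∀ c, (G' c).totalDegree ≤ d) → 0 < η₂ → η₂ ≤ η₃ →
      Real.log (η₃ / η₂) ≤ ((L - u : ℕ) : ℝ) * Real.log 2 →
      Pr p {ω | x ω ∈ {ξ | NearG L u pos η₂ G ξ ∧ NearG L u pos η₂ G' ξ ∧
        ¬ ∀ y : Fin n → ℝ, (∀ i, |y i - KBX.cc L u pos ξ i| ≤ 2 * (1 / 2 ^ u)) →
          |MvPolynomial.eval y (Gc L u pos G ξ) - MvPolynomial.eval y (Gc L u pos G' ξ)| ≤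
            η₃}} ≤ Real.exp (C * (e₁ + W0 L κ γ ε) - Real.log (η₃ / η₂) / C) := by
  classical
  obtain ⟨C₁, hC₁, hfull⟩ := full_thm n C₀ hC₀
  obtain ⟨C₃, hC₃, hext⟩ := ext_cube n d
  obtain ⟨C₂, hC₂, hrik⟩ := rik_thm rmg_thm gvi_thm n d (2 * d + 1) (by omega)
  set K' : ℕ := 2 * d + 1 with hK'
  have hK'1 : (1 : ℝ) ≤ K' := by
    have : 1 ≤ K' := by omega
    exact_mod_cast this
  have hn1 : (1 : ℝ) ≤ n := by exact_mod_cast hn
  have hlogC : 0 ≤ Real.log (2 * C₃) := Real.log_nonneg (by linarith)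
  refine ⟨n * K' + (1 + C₁ + Real.log (2 * C₃) + C₂), ?_, ?_⟩
  · have : 0 ≤ (n : ℝ) * K' := by positivity
    linarith
  set C : ℝ := n * K' + (1 + C₁ + Real.log (2 * C₃) + C₂) with hC
  have hnK : 1 ≤ (n : ℝ) * K' := by nlinarith
  have hC0 : 0 < C := by linarith
  intro Ω Λ Ξ _ p lam x T pos A B μ L κ γ u δ ε e₁ e₃ η₂ η₃ G G' hSL hκ hγ huL hG hG' hη₂ hη hlog
  have hp : IsLaw p := hSL.leaf.isLaw
  obtain ⟨V, hV⟩ : ∃ V : Set Ξ, V = {ξ | NearG L u pos η₂ G ξ ∧ NearG L u pos η₂ G' ξ ∧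
        ¬ ∀ y : Fin n → ℝ, (∀ i, |y i - KBX.cc L u pos ξ i| ≤ 2 * (1 / 2 ^ u)) →
          |MvPolynomial.eval y (Gc L u pos G ξ) - MvPolynomial.eval y (Gc L u pos G' ξ)| ≤
            η₃} := ⟨_, rfl⟩
  rw [← hV]
  have hη₃ : 0 < η₃ := hη₂.trans_le hη
  have hX0 : 0 ≤ Real.log (η₃ / η₂) :=
    Real.log_nonneg (by rw [le_div_iff₀ hη₂]; linarith)
  rcases (Pr_nonneg hp {ω | x ω ∈ V}).lt_or_eq with hPV | hPV
  swap
  · rw [← hPV]; exact (Real.exp_pos _).le
  set a : ℝ := -Real.log (Pr p {ω | x ω ∈ V}) with ha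
  have ha0 : 0 ≤ a := by
    rw [ha]
    have := Real.log_nonpos hPV.le (Pr_le_one hp _)
    linarith
  have hPa : Pr p {ω | x ω ∈ V} = Real.exp (-a) := by
    rw [ha, neg_neg, Real.exp_log hPV]
  set q := rs p {ω | x ω ∈ V} with hq
  have hqlaw : IsLaw q := rs_isLaw hp hPV
  have hSLq : SL L C₀ δ ε (e₁ + a) e₃ q lam x T pos A B μ :=
    Pool.Agent.H60.KBX.sli_thm n Ω Λ Ξ p lam x T pos A B μ L C₀ δ ε e₁ e₃ a V hSL ha0 hPa.ge
  -- (A) fullness
  set R : ℕ := 2 ^ (L - u) with hR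
  have hR0 : 0 < R := by positivity
  have hKR : 2 ^ L = 2 ^ u * R := by rw [hR, ← pow_add]; congr 1; omega
  have htime : L * Real.log 2 - CH q (fun ω => T (x ω)) lam ≤ e₁ + a := by
    have h1 := Pool.STPA.time_of_law hqlaw lam (fun ω => T (x ω)) hSLq.μ_nonneg hSLq.μ_sum
      (η := e₁ + a) (N := 2 ^ L) (by positivity) hSLq.time
    rw [Real.log_pow] at h1
    linarith
  have hA := hfull Ω Λ Ξ q lam x T pos A B (2 ^ u) R L κ γ δ ε (e₁ + a) (fun _ => ε) hKR
    Nat.one_le_two_pow hSLq.leaf hSLq.δ_pos (fun _ => hSLq.ε_nonneg)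
    (by rw [Ex_const hqlaw.sum_one]) hSLq.ncf hγ hκ htime
  -- (B) the deficit in one cell
  set X := Real.log (η₃ / η₂) with hX
  have hcell : ∀ c ∈ univ.image (fun ω => cel R pos (x ω)), law q (fun ω => cel R pos (x ω)) c *
      (X / K' - Real.log (2 * C₃) - C₂) ≤ law q (fun ω => cel R pos (x ω)) c *
      (n * Real.log R - H (Pool.Agent.H49.Ent.cond q (fun ω => cel R pos (x ω)) c)
        (fun ω => bas pos (x ω))) := by
    intro c _
    rcases (law_nonneg hqlaw.nonneg (fun ω => cel R pos (x ω)) c).eq_or_lt with h0 | h0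
    · rw [← h0]; simp
    refine mul_le_mul_of_nonneg_left ?_ h0.le
    set qc := Pool.Agent.H49.Ent.cond q (fun ω => cel R pos (x ω)) c with hqc
    have hqclaw : IsLaw qc := ⟨fun ω => cond_nonneg hqlaw.nonneg _ _ ω, sum_cond q _ h0.ne'⟩
    have hqcpos : ∀ ω, 0 < qc ω → 0 < q ω ∧ cel R pos (x ω) = c := fun ω hω =>
      (cond_pos_iff hqlaw.nonneg _ _ ω).mp hω
    obtain ⟨ω₀, hω₀⟩ : ∃ ω, 0 < qc ω := by
      by_contra hcon
      push Not at hcon
      have h1 : ∑ ω, qc ω ≤ 0 := Finset.sum_nonpos fun ω _ => hcon ω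
      rw [hqclaw.sum_one] at h1
      linarith
    have hVq : ∀ ω, 0 < q ω → x ω ∈ V := fun ω hω => ((rs_pos hp).1 hω).2
    have hcc : ∀ ξ, cel R pos ξ = c → KBX.cc L u pos ξ = crn (2 ^ L) R c := by
      intro ξ hξ
      unfold KBX.cc
      rw [← hR, hξ]
    have hGcc : ∀ (G : (Option (Fin n) → ℕ) → MvPolynomial (Fin n) ℝ) ξ, cel R pos ξ = c →
        Gc L u pos G ξ = G c := by
      intro G ξ hξ
      unfold Gc
      rw [← hR, hξ]
    set P : MvPolynomial (Fin n) ℝ := aff (crn (2 ^ L) R c) (1 / 2 ^ u) (G c - G' c) with hP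
    have hPd : P.totalDegree ≤ d :=
      totalDegree_aff _ _ ((MvPolynomial.totalDegree_sub _ _).trans (max_le (hG c) (hG' c)))
    have hPe : ∀ s, MvPolynomial.eval s P =
        MvPolynomial.eval (fun i => crn (2 ^ L) R c i + 1 / 2 ^ u * s i) (G c) -
        MvPolynomial.eval (fun i => crn (2 ^ L) R c i + 1 / 2 ^ u * s i) (G' c) := by
      intro s
      rw [hP, eval_aff, map_sub]
    -- a large value
    have hlarge : ∃ s : Fin n → ℝ, (∀ i, s i ∈ Set.Icc (0 : ℝ) 1) ∧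
        η₃ / C₃ ≤ |MvPolynomial.eval s P| := by
      by_contra hcon
      push Not at hcon
      have h1 := hext P (η₃ / C₃) hPd fun s hs => (hcon s hs).le
      have h2 := hVq ω₀ (hqcpos ω₀ hω₀).1
      rw [hV] at h2
      refine h2.2.2 fun y hy => ?_
      rw [hGcc G _ (hqcpos ω₀ hω₀).2, hGcc G' _ (hqcpos ω₀ hω₀).2]
      rw [hcc _ (hqcpos ω₀ hω₀).2] at hy
      have h3 := h1 (fun i => 2 ^ u * (y i - crn (2 ^ L) R c i)) (fun i => by
        rw [abs_mul, abs_of_pos (by positivity : (0 : ℝ) < 2 ^ u)]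
        calc (2 : ℝ) ^ u * |y i - crn (2 ^ L) R c i| ≤ 2 ^ u * (2 * (1 / 2 ^ u)) :=
              mul_le_mul_of_nonneg_left (hy i) (by positivity)
          _ = 2 := by field_simp)
      rw [hPe] at h3
      have h4 : (fun i => crn (2 ^ L) R c i + 1 / 2 ^ u * (2 ^ u * (y i - crn (2 ^ L) R c i))) =
          y := by
        funext i
        field_simp
        ring
      rw [h4, mul_div_cancel₀ _ (by linarith : C₃ ≠ 0)] at h3
      exact h3
    have h1 := hrik Ω qc R (fun ω => off hR0 pos (x ω)) P (η₃ / C₃) hqclaw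
      (fun i => (MvPolynomial.degreeOf_le_totalDegree P i).trans hPd) (by positivity) hlarge
    have hHoff : H qc (fun ω => off hR0 pos (x ω)) = H qc (fun ω => bas pos (x ω)) := by
      refine H_congr hqclaw.nonneg ?_ ?_
      · intro ω ω' hω hω' he
        funext i
        have e1 := congrFun he i
        unfold bas at e1
        simp only at e1
        unfold off
        rw [Fin.mk.injEq, e1]
      · intro ω ω' hω hω' he
        funext i
        have e1 := congrFun he i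
        unfold off at e1
        simp only [Fin.mk.injEq] at e1
        have e2 : pos (x ω) (some i) / R = pos (x ω') (some i) / R := by
          have := congrFun ((hqcpos ω hω).2.trans (hqcpos ω' hω').2.symm) (some i)
          exact this
        change pos (x ω) (some i) = pos (x ω') (some i)
        rw [← Nat.div_add_mod (pos (x ω) (some i)) R, ← Nat.div_add_mod (pos (x ω') (some i)) R,
          e1, e2]
    rw [hHoff] at h1
    -- small values
    have hval : ∀ ω, 0 < qc ω →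
        |MvPolynomial.eval (fun i => (((off hR0 pos (x ω)) i : ℕ) : ℝ) / R) P| ≤ 2 * η₂ := by
      intro ω hω
      obtain ⟨hω1, hω2⟩ := hqcpos ω hω
      have h2 := hVq ω hω1
      rw [hV] at h2
      have h3 := h2.1
      have h4 := h2.2.1
      unfold NearG at h3 h4
      rw [hGcc _ _ hω2] at h3 h4
      have h5 : (fun i => crn (2 ^ L) R c i +
          1 / 2 ^ u * ((((off hR0 pos (x ω)) i : ℕ) : ℝ) / R)) =
          fun i => rp (2 ^ L) pos (x ω) (some i) := by
        funext i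
        have e1 : c (some i) = pos (x ω) (some i) / R := by rw [← hω2]; rfl
        unfold crn rp off
        simp only
        rw [e1]
        have e2 : (pos (x ω) (some i) : ℝ) =
            ((pos (x ω) (some i) / R * R : ℕ) : ℝ) + ((pos (x ω) (some i) % R : ℕ) : ℝ) := by
          have := Nat.div_add_mod (pos (x ω) (some i)) R
          rw [mul_comm] at this
          exact_mod_cast this.symm
        rw [e2]
        have e3 : (((2 ^ L : ℕ)) : ℝ) = 2 ^ u * (R : ℝ) := by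
          rw [hKR]
          push_cast
          ring
        rw [e3]
        have e4 : (R : ℝ) ≠ 0 := by positivity
        field_simp
      rw [hPe, h5]
      rw [abs_le] at h3 h4 ⊢
      constructor <;> linarith [h3.1, h3.2, h4.1, h4.2]
    have hSC : 0 < η₃ / C₃ := by positivity
    have hRr : (1 : ℝ) ≤ R := by exact_mod_cast hR0
    have hmx : 0 < max (2 * η₂) (η₃ / C₃ / (R : ℝ) ^ K') := lt_max_of_lt_left (by linarith)
    have h2 : Ex qc (fun ω => Real.log (max
        |MvPolynomial.eval (fun i => (((off hR0 pos (x ω)) i : ℕ) : ℝ) / R) P|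
          (η₃ / C₃ / (R : ℝ) ^ K'))) ≤ Real.log (max (2 * η₂) (η₃ / C₃ / (R : ℝ) ^ K')) := by
      rw [← Ex_const hqclaw.sum_one (Real.log (max (2 * η₂) (η₃ / C₃ / (R : ℝ) ^ K')))]
      refine Ex_mono hqclaw.nonneg fun ω hω => ?_
      refine Real.log_le_log (lt_max_of_lt_right (by positivity)) ?_
      exact max_le_max (hval ω hω) le_rfl
    have h3 := h1.trans h2
    set Dc : ℝ := n * Real.log R - H qc (fun ω => bas pos (x ω)) with hDc
    have h4 : Real.log (η₃ / C₃) - Real.log (max (2 * η₂) (η₃ / C₃ / (R : ℝ) ^ K')) ≤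
        K' * (Dc + C₂) := by linarith
    rcases le_total (2 * η₂) (η₃ / C₃ / (R : ℝ) ^ K') with h5 | h5
    · rw [max_eq_right h5, Real.log_div hSC.ne' (by positivity), Real.log_pow] at h4
      have h6 : (K' : ℝ) * Real.log R ≤ K' * (Dc + C₂) := by linarith
      have h7 : Real.log R ≤ Dc + C₂ := le_of_mul_le_mul_left h6 (by linarith)
      have h8 : X ≤ Real.log R := by
        rw [hR]
        push_cast
        rw [Real.log_pow]
        exact hlog
      have h9 : X / K' ≤ X := div_le_self hX0 hK'1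
      linarith
    · rw [max_eq_left h5] at h4
      have h6 : Real.log (η₃ / C₃) - Real.log (2 * η₂) = X - Real.log (2 * C₃) := by
        rw [hX, Real.log_div hη₃.ne' (by linarith), Real.log_div hη₃.ne' hη₂.ne',
          Real.log_mul (by norm_num) hη₂.ne', Real.log_mul (by norm_num) (by linarith)]
        ring
      rw [h6] at h4
      have h7 : (X - Real.log (2 * C₃)) / K' ≤ Dc + C₂ := by
        rw [div_le_iff₀ (by linarith)]
        linarith
      have h8 : Real.log (2 * C₃) / K' ≤ Real.log (2 * C₃) := div_le_self hlogC hK'1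
      rw [sub_div] at h7
      linarith
  have hB : X / K' - Real.log (2 * C₃) - C₂ ≤ n * Real.log R -
      CH q (fun ω => bas pos (x ω)) (fun ω => cel R pos (x ω)) := by
    rw [CH_eq_sum hqlaw.nonneg]
    have h1 := Finset.sum_le_sum hcell
    rw [← Finset.sum_mul] at h1
    simp only [mul_sub, Finset.sum_sub_distrib] at h1
    rw [← Finset.sum_mul] at h1
    have h2 : ∑ c ∈ univ.image (fun ω => cel R pos (x ω)), law q (fun ω => cel R pos (x ω)) c =
        1 := by rw [sum_law, hqlaw.sum_one]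
    rw [h2] at h1
    linarith
  -- (C)
  have hW : 0 ≤ W0 L κ γ ε := by
    unfold W0
    have := hSL.ε_nonneg
    positivity
  have hW1 : 1 ≤ W0 L κ γ ε := by
    unfold W0
    have := hSL.ε_nonneg
    have h1 : (0 : ℝ) ≤ (L : ℝ) / κ := by positivity
    have h2 : (0 : ℝ) ≤ γ := Nat.cast_nonneg _
    have h3 : (0 : ℝ) ≤ κ := Nat.cast_nonneg _
    have h4 : 0 ≤ ε * L := by positivity
    linarith
  have he₁ := hSL.e₁_nonneg
  have hfin : X / K' - Real.log (2 * C₃) - C₂ ≤ n * (e₁ + a) + C₁ * W0 L κ γ ε := hB.trans hA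
  rw [hPa]
  refine Real.exp_le_exp.2 ?_
  have h1 : X / C ≤ X / (n * K') := by
    refine div_le_div_of_nonneg_left hX0 (by linarith) ?_
    linarith
  have h2 : X / (n * K') ≤ e₁ + a + C₁ * W0 L κ γ ε + Real.log (2 * C₃) + C₂ := by
    rw [div_le_iff₀ (by positivity)]
    have h3 : X ≤ (n * (e₁ + a) + C₁ * W0 L κ γ ε + Real.log (2 * C₃) + C₂) * K' := by
      rw [← div_le_iff₀ (by linarith)]
      linarith
    refine h3.trans ?_
    have h4 : 0 ≤ C₁ * W0 L κ γ ε := by positivity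
    have h5 : n * (e₁ + a) + C₁ * W0 L κ γ ε + Real.log (2 * C₃) + C₂ ≤
        (e₁ + a + C₁ * W0 L κ γ ε + Real.log (2 * C₃) + C₂) * n := by nlinarith
    calc _ ≤ (e₁ + a + C₁ * W0 L κ γ ε + Real.log (2 * C₃) + C₂) * n * K' :=
          mul_le_mul_of_nonneg_right h5 (by linarith)
      _ = _ := by ring
  have h3 : e₁ + C₁ * W0 L κ γ ε + Real.log (2 * C₃) + C₂ ≤ C * (e₁ + W0 L κ γ ε) := by
    rw [hC]
    have h4 : (1 + C₁ + Real.log (2 * C₃) + C₂) * (e₁ + W0 L κ γ ε) ≥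
        e₁ + C₁ * W0 L κ γ ε + Real.log (2 * C₃) + C₂ := by
      have h5 : Real.log (2 * C₃) ≤ Real.log (2 * C₃) * W0 L κ γ ε := le_mul_of_one_le_right hlogC hW1
      have h6 : C₂ ≤ C₂ * W0 L κ γ ε := le_mul_of_one_le_right hC₂ hW1
      have h7 : 0 ≤ (C₁ + Real.log (2 * C₃) + C₂) * e₁ := by positivity
      nlinarith
    have h8 : 0 ≤ (n : ℝ) * K' * (e₁ + W0 L κ γ ε) := by positivity
    nlinarith
  linarith

end Pool.GLM
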