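import Pool.Agent.H78.GLM.Rgl2

/-!
# Polynomials along the lines of a leaf
-/

set_option autoImplicit false

namespace Pool.GLM

open Finset Real MeasureTheory
open Pool.Agent.H49.Ent Pool.Agent.H32.Dense Pool.STK Pool.KAF Pool.KAL Pool.KS3 Pool.KBX

/-- The error of the grid. -/
noncomputable def grE (n L : ℕ) (C₀ S : ℝ) : ℝ := C₀ / 2 ^ L + n * (S * (C₀ / 2 ^ L))

/-- The polynomial along the line. -/
noncomputable def lnq {n : ℕ} {Λ : Type} (L : ℕ) (A B : Λ → Option (Fin n) → ℝ) (l : Λ)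
    (G : MvPolynomial (Fin n) ℝ) : Polynomial ℝ :=
  Polynomial.C (A l none) + Polynomial.C (B l none / 2 ^ L) * Polynomial.X -
    Pool.BFL.ln G (fun i => A l (some i)) (fun i => B l (some i) / 2 ^ L)

lemma lnq_eval {n : ℕ} {Λ : Type} (L : ℕ) (A B : Λ → Option (Fin n) → ℝ) (l : Λ)
    (G : MvPolynomial (Fin n) ℝ) (t : ℝ) : (lnq L A B l G).eval t =
      A l none + t / 2 ^ L * B l none -
        MvPolynomial.eval (fun i => A l (some i) + t / 2 ^ L * B l (some i)) G := by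
  unfold lnq
  simp only [Polynomial.eval_sub, Polynomial.eval_add, Polynomial.eval_C, Polynomial.eval_mul,
    Polynomial.eval_X, Pool.BFL.ln_eval]
  congr 1
  · ring
  · congr 1
    congr 1
    funext i
    ring

lemma lnq_deg {n : ℕ} {Λ : Type} (L : ℕ) (A B : Λ → Option (Fin n) → ℝ) (l : Λ)
    {G : MvPolynomial (Fin n) ℝ} {d : ℕ} (hd : 1 ≤ d) (hG : G.totalDegree ≤ d) :
    (lnq L A B l G).natDegree ≤ d := by
  unfold lnq
  refine (Polynomial.natDegree_sub_le _ _).trans (max_le ?_ (Pool.BFL.ln_natDegree hG _ _))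
  refine (Polynomial.natDegree_add_le _ _).trans (max_le ?_ ?_)
  · rw [Polynomial.natDegree_C]
    exact Nat.zero_le _
  · exact ((Polynomial.natDegree_C_mul_le _ _).trans Polynomial.natDegree_X_le).trans hd

/-- Along the line the values of `N - G (Y)` are near the values of the polynomial. -/
lemma lnq_near {n : ℕ} {C₀ : ℝ} (hC₀ : 1 ≤ C₀) {Ω Λ Ξ : Type} [Fintype Ω] {p : Ω → ℝ}
    {lam : Ω → Λ} {x : Ω → Ξ} {T : Ξ → ℕ} {pos : Ξ → Option (Fin n) → ℕ}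
    {A B : Λ → Option (Fin n) → ℝ} {L u : ℕ} (hleaf : Leaf n (2 ^ L) C₀ p lam x T pos A B)
    (huL : u ≤ L) (hCu : C₀ * 2 ^ u ≤ 2 ^ L)
    (G : (Option (Fin n) → ℕ) → MvPolynomial (Fin n) ℝ) {S : ℝ} (ω : Ω)
    (hG : GrB L u pos S G (x ω)) :
    |(rp (2 ^ L) pos (x ω) none -
      MvPolynomial.eval (fun i => rp (2 ^ L) pos (x ω) (some i)) (Gc L u pos G (x ω))) -
      (lnq L A B (lam ω) (Gc L u pos G (x ω))).eval (T (x ω) : ℝ)| ≤ grE n L C₀ S := by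
  have hL0 : (0 : ℝ) < 2 ^ L := by positivity
  have hnear : ∀ o, |rp (2 ^ L) pos (x ω) o - (A (lam ω) o + (T (x ω) : ℝ) / 2 ^ L *
      B (lam ω) o)| ≤ C₀ / 2 ^ L := by
    intro o
    have h1 := hleaf.near ω o
    push_cast at h1
    have h2 : rp (2 ^ L) pos (x ω) o = (pos (x ω) o : ℝ) / 2 ^ L := by
      unfold rp
      push_cast
      rfl
    rw [h2]
    exact h1
  have hin : ∀ i, |rp (2 ^ L) pos (x ω) (some i) - KBX.cc L u pos (x ω) i| ≤ 1 / 2 ^ u :=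
    fun i => SLP.in_cell huL pos (x ω) i
  have hCL : C₀ / 2 ^ L ≤ 1 / 2 ^ u := by
    rw [div_le_div_iff₀ hL0 (by positivity)]
    linarith
  have hu0 : (0 : ℝ) < 1 / 2 ^ u := by positivity
  have hmv := val_move (a := KBX.cc L u pos (x ω)) (r := 2 * (1 / 2 ^ u)) (S := S)
    (δ := C₀ / 2 ^ L) (G := Gc L u pos G (x ω)) hG
    (y := fun i => rp (2 ^ L) pos (x ω) (some i))
    (z := fun i => A (lam ω) (some i) + (T (x ω) : ℝ) / 2 ^ L * B (lam ω) (some i))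
    (fun i => (hin i).trans (by linarith)) (fun i => by
      have h1 := hnear (some i)
      have h2 := hin i
      rw [abs_le] at h1 h2 ⊢
      constructor <;> linarith [h1.1, h1.2, h2.1, h2.2])
    (fun i => hnear (some i))
  have h1 := hnear none
  rw [lnq_eval]
  unfold grE
  rw [abs_le] at h1 hmv ⊢
  constructor <;> linarith [h1.1, h1.2, hmv.1, hmv.2]

/-- **A polynomial which is near many points of a line is near all of them.** -/
theorem line_all {n d : ℕ} (hd : 1 ≤ d) {C₀ : ℝ} (hC₀ : 1 ≤ C₀) {Ω Λ Ξ : Type} [Fintype Ω]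
    {p : Ω → ℝ} {lam : Ω → Λ} {x : Ω → Ξ} {T : Ξ → ℕ} {pos : Ξ → Option (Fin n) → ℕ}
    {A B : Λ → Option (Fin n) → ℝ} {L u : ℕ} (hleaf : Leaf n (2 ^ L) C₀ p lam x T pos A B)
    (huL : u ≤ L) (hCu : C₀ * 2 ^ u ≤ 2 ^ L)
    (G : (Option (Fin n) → ℕ) → MvPolynomial (Fin n) ℝ) (hGd : ∀ c, (G c).totalDegree ≤ d)
    {S η ρ : ℝ} (ω : Ω) (hG : GrB L u pos S G (x ω)) (E : Finset ℕ)
    (hEc : ρ * 2 ^ (L - u) ≤ E.card) (hρ : 0 < ρ) (hdρ : (d : ℝ) + 1 ≤ ρ * 2 ^ (L - u))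
    (hE : ∀ s ∈ E, ∃ ω'', lam ω'' = lam ω ∧ T (x ω'') = s ∧
      T (x ω'') / 2 ^ (L - u) = T (x ω) / 2 ^ (L - u) ∧
      cel (2 ^ (L - u)) pos (x ω'') = cel (2 ^ (L - u)) pos (x ω) ∧
      NearG L u pos η G (x ω''))
    (ω' : Ω) (hl : lam ω' = lam ω) (hT : T (x ω') / 2 ^ (L - u) = T (x ω) / 2 ^ (L - u))
    (hc : cel (2 ^ (L - u)) pos (x ω') = cel (2 ^ (L - u)) pos (x ω)) :
    NearG L u pos (((d : ℝ) + 1) * (4 * d / ρ) ^ d * (η + grE n L C₀ S) + grE n L C₀ S) G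
      (x ω') := by
  set Q := lnq L A B (lam ω) (Gc L u pos G (x ω)) with hQ
  have hcel : ∀ ω'', cel (2 ^ (L - u)) pos (x ω'') = cel (2 ^ (L - u)) pos (x ω) →
      Gc L u pos G (x ω'') = Gc L u pos G (x ω) ∧ GrB L u pos S G (x ω'') := by
    intro ω'' h
    have e1 : Gc L u pos G (x ω'') = Gc L u pos G (x ω) := by
      unfold Gc
      rw [h]
    have e2 : KBX.cc L u pos (x ω'') = KBX.cc L u pos (x ω) := by
      unfold KBX.cc
      rw [h]
    refine ⟨e1, ?_⟩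
    unfold GrB
    rw [e1, e2]
    exact hG
  set U : ℕ := T (x ω) / 2 ^ (L - u) * 2 ^ (L - u) with hU
  have hwin : ∀ t : ℕ, t / 2 ^ (L - u) = T (x ω) / 2 ^ (L - u) → U ≤ t ∧ t < U + 2 ^ (L - u) := by
    intro t ht
    rw [hU, ← ht]
    exact ⟨Nat.div_mul_le_self _ _, Nat.lt_div_mul_add (by positivity)⟩
  have h1 := grid_val d hd Q E U (2 ^ (L - u)) ρ (η + grE n L C₀ S) (T (x ω') : ℝ)
    (lnq_deg L A B (lam ω) hd (hGd _)) hρ
    (fun e he => by
      obtain ⟨ω'', -, h2, h3, -⟩ := hE e he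
      rw [h2] at h3
      exact hwin e h3)
    (by push_cast; exact hEc) (by push_cast; exact hdρ)
    (fun e he => by
      obtain ⟨ω'', h2, h3, h4, h5, h6⟩ := hE e he
      obtain ⟨h7, h8⟩ := hcel ω'' h5
      have h9 := lnq_near hC₀ hleaf huL hCu G ω'' h8
      rw [h2, h3, h7] at h9
      unfold NearG at h6
      rw [h7] at h6
      rw [hQ]
      rw [abs_le] at h6 h9 ⊢
      constructor <;> linarith [h6.1, h6.2, h9.1, h9.2])
    (by
      have := (hwin _ hT).1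
      have h2 : (U : ℝ) ≤ T (x ω') := by exact_mod_cast this
      have h3 : (0 : ℝ) ≤ ((2 ^ (L - u) : ℕ) : ℝ) := Nat.cast_nonneg _
      linarith)
    (by
      have := (hwin _ hT).2
      have h2 : (T (x ω') : ℝ) < U + ((2 ^ (L - u) : ℕ) : ℝ) := by exact_mod_cast this
      have h3 : (0 : ℝ) ≤ ((2 ^ (L - u) : ℕ) : ℝ) := Nat.cast_nonneg _
      linarith)
  obtain ⟨h7, h8⟩ := hcel ω' hc
  have h9 := lnq_near hC₀ hleaf huL hCu G ω' h8
  rw [hl, h7] at h9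
  unfold NearG
  rw [h7]
  rw [hQ] at h1
  rw [abs_le] at h1 h9 ⊢
  constructor <;> linarith [h1.1, h1.2, h9.1, h9.2]

end Pool.GLM
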