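import Pool.Agent.H78.GLM.Rgl3

/-!
# Regularity of a leaf with a large probability: the labels of the points and of the lines
-/

set_option autoImplicit false

namespace Pool.GLM

open Finset Real MeasureTheory
open Pool.Agent.H49.Ent Pool.Agent.H32.Dense Pool.STK Pool.KAF Pool.KAL Pool.KS3 Pool.KBX

/-- The set of pairs of polynomials which are near at the point but not near on the cell. -/
def Vbad {n : ℕ} {Ξ : Type} (L u : ℕ) (pos : Ξ → Option (Fin n) → ℕ) (η₂ η₃ : ℝ)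
    (G G' : (Option (Fin n) → ℕ) → MvPolynomial (Fin n) ℝ) : Set Ξ :=
  {ξ | NearG L u pos η₂ G ξ ∧ NearG L u pos η₂ G' ξ ∧
    ¬ ∀ y : Fin n → ℝ, (∀ i, |y i - KBX.cc L u pos ξ i| ≤ 2 * (1 / 2 ^ u)) →
      |MvPolynomial.eval y (Gc L u pos G ξ) - MvPolynomial.eval y (Gc L u pos G' ξ)| ≤ η₃}

theorem rgl_core {n d : ℕ} (hd : 1 ≤ d) {C₀ : ℝ} (hC₀ : 1 ≤ C₀) {Ω Λ Ξ : Type} [Fintype Ω]
    {p : Ω → ℝ} {lam : Ω → Λ} {x : Ω → Ξ} {T : Ξ → ℕ} {pos : Ξ → Option (Fin n) → ℕ}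
    {A B : Λ → Option (Fin n) → ℝ} {μ : Λ → ℝ} {L u s₁ M : ℕ}
    {δ ε e₁ e₃ Mr K η₁ η₂ η₃ β θ ρ : ℝ}
    (hSL : SL L C₀ δ ε e₁ e₃ p lam x T pos A B μ) (huL : u ≤ L) (hCu : C₀ * 2 ^ u ≤ 2 ^ L)
    (hM : (M : ℝ) ≤ Mr) (hMr : 1 ≤ Mr) (hK : 1 ≤ K)
    (G : Fin M → (Option (Fin n) → ℕ) → MvPolynomial (Fin n) ℝ)
    (hGd : ∀ k c, (G k c).totalDegree ≤ d)
    (hunc : Pr p {ω | ∀ k, ¬ (NearG L u pos η₁ (G k) (x ω) ∧
      GrB L u pos (2 ^ s₁) (G k) (x ω))} ≤ 1 / 32)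
    (hpair : ∀ k k', Pr p {ω | x ω ∈ Vbad L u pos η₂ η₃ (G k) (G k')} ≤ 1 / (32 * Mr ^ 2))
    (hthin : ∀ q : Ω → ℝ, Leaf n (2 ^ L) C₀ q lam x T pos A B →
      Pr q (SLP.Thin L u θ q lam x T pos μ) ≤ K * θ)
    (hβ : β = 1 / (32 * Mr)) (hθ : θ = 1 / (32 * K * Mr))
    (hρ : ρ = θ * Real.exp (-(e₁ + Real.log (1 / β)))) (hdρ : (d : ℝ) + 1 ≤ ρ * 2 ^ (L - u))
    (hη : η₁ ≤ η₂)
    (hη2 : ((d : ℝ) + 1) * (4 * d / ρ) ^ d * (η₁ + grE n L C₀ (2 ^ s₁)) + grE n L C₀ (2 ^ s₁) ≤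
      η₂) :
    ∃ (g : Ξ → MvPolynomial (Fin n) ℝ)
      (h : (Λ × ℕ) × (Option (Fin n) → ℕ) → MvPolynomial (Fin n) ℝ) (E : Set Ω),
      3 / 4 ≤ Pr p E ∧ (∀ ξ, (g ξ).totalDegree ≤ d) ∧ (∀ v, (h v).totalDegree ≤ d) ∧
      ∀ ω ∈ E, 0 < p ω ∧ |rp (2 ^ L) pos (x ω) none -
        MvPolynomial.eval (fun i => rp (2 ^ L) pos (x ω) (some i)) (g (x ω))| ≤ η₂ ∧
        ∀ y : Fin n → ℝ, (∀ i, |y i - KBX.cc L u pos (x ω) i| ≤ 2 * (1 / 2 ^ u)) →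
          (∀ i, |MvPolynomial.eval y (MvPolynomial.pderiv i (g (x ω)))| ≤ 2 ^ s₁) ∧
          |MvPolynomial.eval y (g (x ω)) -
            MvPolynomial.eval y (h (SLP.tr L u lam x T pos ω))| ≤ η₃ := by
  classical
  have hp : IsLaw p := hSL.leaf.isLaw
  have hp0 := hp.nonneg
  have hMr0 : 0 < Mr := by linarith
  have hK0 : 0 < K := by linarith
  have hβ0 : 0 < β := by rw [hβ]; positivity
  have hθ0 : 0 < θ := by rw [hθ]; positivity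
  have hρ0 : 0 < ρ := by rw [hρ]; positivity
  have hβ1 : β ≤ 1 := by
    rw [hβ, div_le_one (by positivity)]
    linarith
  have hlogβ : 0 ≤ Real.log (1 / β) := Real.log_nonneg (by rw [le_div_iff₀ hβ0]; linarith)
  obtain ⟨S, hS⟩ : ∃ S : Fin M → Set Ξ, S = fun k => {ξ | NearG L u pos η₁ (G k) ξ ∧
      GrB L u pos (2 ^ s₁) (G k) ξ} := ⟨_, rfl⟩
  obtain ⟨q, hq⟩ : ∃ q : Fin M → Ω → ℝ, q = fun k => rs p {ω | x ω ∈ S k} := ⟨_, rfl⟩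
  have hSk : ∀ k ξ, ξ ∈ S k → NearG L u pos η₁ (G k) ξ ∧ GrB L u pos (2 ^ s₁) (G k) ξ := by
    intro k ξ h
    rw [hS] at h
    exact h
  -- thick incidences
  obtain ⟨Q, hQ⟩ : ∃ Q : Fin M → Ω → Prop, Q = fun k ω => 0 < p ω ∧ x ω ∈ S k ∧
      β ≤ Pr p {ω | x ω ∈ S k} ∧ ω ∉ SLP.Thin L u θ (q k) lam x T pos μ := ⟨_, rfl⟩
  have key : ∀ k ω₀ ω', Q k ω₀ → SLP.tr L u lam x T pos ω' = SLP.tr L u lam x T pos ω₀ →
      NearG L u pos η₂ (G k) (x ω') := by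
    intro k ω₀ ω' hQk htr
    rw [hQ] at hQk
    obtain ⟨h1, h2, h3, h4⟩ := hQk
    have hPk : 0 < Pr p {ω | x ω ∈ S k} := hβ0.trans_le h3
    have hSLk : SL L C₀ δ ε (e₁ + Real.log (1 / β)) e₃ (q k) lam x T pos A B μ := by
      rw [hq]
      refine Pool.Agent.H60.KBX.sli_thm n Ω Λ Ξ p lam x T pos A B μ L C₀ δ ε e₁ e₃
        (Real.log (1 / β)) (S k) hSL hlogβ ?_
      rw [Real.exp_neg, Real.exp_log (by positivity), one_div, inv_inv]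
      exact h3
    have hω₀ : 0 < q k ω₀ := by
      rw [hq]
      exact (rs_pos hp).2 ⟨h1, h2⟩
    obtain ⟨E, hE1, hE2⟩ := SLP.times hSLk.leaf.isLaw.nonneg huL hSLk.time hω₀ h4
    have h5 := line_all hd hC₀ hSL.leaf huL hCu (G k) (hGd k) (S := 2 ^ s₁) (η := η₁) (ρ := ρ) ω₀
      (hSk k _ h2).2 E (by rw [hρ]; exact hE1) hρ0 hdρ (fun s hs => by
        obtain ⟨ω'', a1, a2, a3, a4, a5⟩ := hE2 s hs
        have a6 : x ω'' ∈ S k := by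
          rw [hq] at a1
          exact ((rs_pos hp).1 a1).2
        exact ⟨ω'', a2, a3, a4, a5, (hSk k _ a6).1⟩) ω' (congrArg (fun v => v.1.1) htr)
      (congrArg (fun v => v.1.2) htr) (congrArg Prod.snd htr)
    unfold NearG at h5 ⊢
    exact h5.trans hη2
  -- bad sets
  obtain ⟨V, hV⟩ : ∃ V : Fin M → Fin M → Set Ξ,
      V = fun k k' => Vbad L u pos η₂ η₃ (G k) (G k') := ⟨_, rfl⟩
  obtain ⟨E, hE⟩ : ∃ E : Set Ω, E = {ω | 0 < p ω ∧ (∃ k, Q k ω) ∧ ∀ k k', x ω ∉ V k k'} :=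
    ⟨_, rfl⟩
  have hmass : Pr p Eᶜ ≤ 1 / 4 := by
    have h1 : Pr p Eᶜ ≤ Pr p ({ω | ∀ k, ¬ (NearG L u pos η₁ (G k) (x ω) ∧
        GrB L u pos (2 ^ s₁) (G k) (x ω))} ∪
        ({ω | ∃ k, ω ∈ {ω | x ω ∈ S k ∧ Pr p {ω | x ω ∈ S k} < β}} ∪
        ({ω | ∃ k, ω ∈ {ω | x ω ∈ S k ∧ β ≤ Pr p {ω | x ω ∈ S k} ∧
          ω ∈ SLP.Thin L u θ (q k) lam x T pos μ}} ∪
        {ω | ∃ k, ω ∈ {ω | ∃ k', ω ∈ {ω | x ω ∈ V k k'}}}))) := by
      refine Pr_mono hp fun ω hω hωE => ?_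
      by_contra hcon
      simp only [Set.mem_union, not_or] at hcon
      obtain ⟨c1, c2, c3, c4⟩ := hcon
      refine hωE ?_
      rw [hE]
      refine ⟨hω, ?_, ?_⟩
      · have c1' : ∃ k, x ω ∈ S k := by
          by_contra hc
          push Not at hc
          refine c1 fun k hk => hc k ?_
          rw [hS]
          exact hk
        obtain ⟨k, hk⟩ := c1'
        refine ⟨k, ?_⟩
        rw [hQ]
        have c5 : β ≤ Pr p {ω | x ω ∈ S k} := by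
          by_contra hc
          push Not at hc
          exact c2 ⟨k, hk, hc⟩
        exact ⟨hω, hk, c5, fun hc => c3 ⟨k, hk, c5, hc⟩⟩
      · intro k k' hk
        exact c4 ⟨k, k', hk⟩
    have h2 : Pr p {ω | ∃ k, ω ∈ {ω | x ω ∈ S k ∧ Pr p {ω | x ω ∈ S k} < β}} ≤ M * β := by
      refine Pr_iUnion_le hp _ β fun k => ?_
      by_cases hk : Pr p {ω | x ω ∈ S k} < β
      · exact (Pr_mono hp fun ω _ hω => hω.1).trans hk.le
      · refine le_trans (le_of_eq ?_) hβ0.le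
        have : {ω | x ω ∈ S k ∧ Pr p {ω | x ω ∈ S k} < β} = (∅ : Set Ω) := by
          ext ω
          constructor
          · intro h; exact absurd h.2 hk
          · intro h; exact absurd h (Set.notMem_empty _)
        rw [this, Pr_eq]
        simp
    have h3 : Pr p {ω | ∃ k, ω ∈ {ω | x ω ∈ S k ∧ β ≤ Pr p {ω | x ω ∈ S k} ∧
          ω ∈ SLP.Thin L u θ (q k) lam x T pos μ}} ≤ M * (K * θ) := by
      refine Pr_iUnion_le hp _ (K * θ) fun k => ?_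
      by_cases hk : β ≤ Pr p {ω | x ω ∈ S k}
      · have hPk : 0 < Pr p {ω | x ω ∈ S k} := hβ0.trans_le hk
        have h4 := hthin (q k) (by
          rw [hq]
          exact ⟨rs_isLaw hp hPk, hSL.leaf.T_lt, hSL.leaf.pos_lt, hSL.leaf.near, hSL.leaf.A_le,
            hSL.leaf.B_le⟩)
        refine le_trans ?_ h4
        have h5 := Pr_inter_le hp (E := {ω | x ω ∈ S k})
          (F := SLP.Thin L u θ (q k) lam x T pos μ) hPk
        have h6 : Pr p {ω | x ω ∈ S k ∧ β ≤ Pr p {ω | x ω ∈ S k} ∧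
            ω ∈ SLP.Thin L u θ (q k) lam x T pos μ} ≤
            Pr p ({ω | x ω ∈ S k} ∩ SLP.Thin L u θ (q k) lam x T pos μ) :=
          Pr_mono hp fun ω _ hω => ⟨hω.1, hω.2.2⟩
        refine h6.trans (h5.trans (le_of_eq ?_))
        rw [hq]
      · refine le_trans (le_of_eq ?_) (by positivity : (0 : ℝ) ≤ K * θ)
        have : {ω | x ω ∈ S k ∧ β ≤ Pr p {ω | x ω ∈ S k} ∧
          ω ∈ SLP.Thin L u θ (q k) lam x T pos μ} = (∅ : Set Ω) := by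
          ext ω
          constructor
          · intro h; exact absurd h.2.1 hk
          · intro h; exact absurd h (Set.notMem_empty _)
        rw [this, Pr_eq]
        simp
    have h4 : Pr p {ω | ∃ k, ω ∈ {ω | ∃ k', ω ∈ {ω | x ω ∈ V k k'}}} ≤
        M * (M * (1 / (32 * Mr ^ 2))) := by
      refine Pr_iUnion_le hp _ _ fun k => ?_
      refine Pr_iUnion_le hp _ _ fun k' => ?_
      rw [hV]
      exact hpair k k'
    have hM0 : (0 : ℝ) ≤ M := Nat.cast_nonneg _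
    have b1 : (M : ℝ) * β ≤ 1 / 32 := by
      calc (M : ℝ) * β ≤ Mr * β := mul_le_mul_of_nonneg_right hM hβ0.le
        _ = 1 / 32 := by rw [hβ]; field_simp
    have b2 : (M : ℝ) * (K * θ) ≤ 1 / 32 := by
      calc (M : ℝ) * (K * θ) ≤ Mr * (K * θ) := mul_le_mul_of_nonneg_right hM (by positivity)
        _ = 1 / 32 := by rw [hθ]; field_simp
    have b3 : (M : ℝ) * (M * (1 / (32 * Mr ^ 2))) ≤ 1 / 32 := by
      calc (M : ℝ) * (M * (1 / (32 * Mr ^ 2))) ≤ Mr * (Mr * (1 / (32 * Mr ^ 2))) := by gcongr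
        _ = 1 / 32 := by field_simp
    have b4 := Pr_union hp {ω | ∀ k, ¬ (NearG L u pos η₁ (G k) (x ω) ∧
        GrB L u pos (2 ^ s₁) (G k) (x ω))}
        ({ω | ∃ k, ω ∈ {ω | x ω ∈ S k ∧ Pr p {ω | x ω ∈ S k} < β}} ∪
        ({ω | ∃ k, ω ∈ {ω | x ω ∈ S k ∧ β ≤ Pr p {ω | x ω ∈ S k} ∧
          ω ∈ SLP.Thin L u θ (q k) lam x T pos μ}} ∪
        {ω | ∃ k, ω ∈ {ω | ∃ k', ω ∈ {ω | x ω ∈ V k k'}}}))
    have b5 := Pr_union hp {ω | ∃ k, ω ∈ {ω | x ω ∈ S k ∧ Pr p {ω | x ω ∈ S k} < β}}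
        ({ω | ∃ k, ω ∈ {ω | x ω ∈ S k ∧ β ≤ Pr p {ω | x ω ∈ S k} ∧
          ω ∈ SLP.Thin L u θ (q k) lam x T pos μ}} ∪
        {ω | ∃ k, ω ∈ {ω | ∃ k', ω ∈ {ω | x ω ∈ V k k'}}})
    have b6 := Pr_union hp {ω | ∃ k, ω ∈ {ω | x ω ∈ S k ∧ β ≤ Pr p {ω | x ω ∈ S k} ∧
          ω ∈ SLP.Thin L u θ (q k) lam x T pos μ}}
        {ω | ∃ k, ω ∈ {ω | ∃ k', ω ∈ {ω | x ω ∈ V k k'}}}
    linarith
  -- the labels
  obtain ⟨g, hg⟩ : ∃ g : Ξ → MvPolynomial (Fin n) ℝ, g = fun ξ =>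
      if h : ∃ k, NearG L u pos η₂ (G k) ξ ∧ GrB L u pos (2 ^ s₁) (G k) ξ then
        Gc L u pos (G h.choose) ξ else 0 := ⟨_, rfl⟩
  obtain ⟨h, hh⟩ : ∃ h : (Λ × ℕ) × (Option (Fin n) → ℕ) → MvPolynomial (Fin n) ℝ, h = fun v =>
      if h : ∃ k ω₀, Q k ω₀ ∧ SLP.tr L u lam x T pos ω₀ = v then G h.choose v.2 else 0 := ⟨_, rfl⟩
  refine ⟨g, h, E, ?_, ?_, ?_, ?_⟩
  · rw [Pr_compl hp] at hmass
    linarith
  · intro ξ
    rw [hg]
    simp only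
    split_ifs
    · exact hGd _ _
    · rw [MvPolynomial.totalDegree_zero]; exact Nat.zero_le _
  · intro v
    rw [hh]
    simp only
    split_ifs
    · exact hGd _ _
    · rw [MvPolynomial.totalDegree_zero]; exact Nat.zero_le _
  · intro ω hω
    rw [hE] at hω
    obtain ⟨hω1, ⟨k, hk⟩, hω3⟩ := hω
    have hk' := hk
    rw [hQ] at hk'
    have ex1 : ∃ k, NearG L u pos η₂ (G k) (x ω) ∧ GrB L u pos (2 ^ s₁) (G k) (x ω) := by
      have h1 := hSk k _ hk'.2.1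
      refine ⟨k, ?_, h1.2⟩
      have h2 := h1.1
      unfold NearG at h2 ⊢
      exact h2.trans hη
    have ex2 : ∃ k ω₀, Q k ω₀ ∧ SLP.tr L u lam x T pos ω₀ = SLP.tr L u lam x T pos ω :=
      ⟨k, ω, hk, rfl⟩
    have g1 : g (x ω) = Gc L u pos (G ex1.choose) (x ω) := by
      rw [hg]
      simp only
      rw [dif_pos ex1]
    have g2 : h (SLP.tr L u lam x T pos ω) = Gc L u pos (G ex2.choose) (x ω) := by
      rw [hh]
      simp only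
      rw [dif_pos ex2]
      rfl
    obtain ⟨c1, c2⟩ := ex1.choose_spec
    obtain ⟨ω₀, c3, c4⟩ := ex2.choose_spec
    have c5 := key _ ω₀ ω c3 c4.symm
    have c6 := hω3 ex1.choose ex2.choose
    rw [g1, g2]
    refine ⟨hω1, c1, fun y hy => ⟨c2 y hy, ?_⟩⟩
    by_contra hcon
    refine c6 ?_
    rw [hV]
    exact ⟨c1, c5, fun hall => hcon (hall y hy)⟩

end Pool.GLM
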